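import Pool.Agent.MP_c7a479_co.PolySieve

/-!
The fundamental lemma of the sieve in the form of Brun and Hooley, with explicit weights.
-/

set_option autoImplicit false

open Finset

namespace Pool.Agent.MP_c853c5_nt.B

open Pool.Agent.MP_c7a479_co.PolySieve

/-- indicator of the numbers all of whose prime factors exceed `z` -/
noncomputable def Rgh (z n : ℕ) : ℝ := by
  classical exact if ∀ p : ℕ, p.Prime → p ∣ n → z < p then 1 else 0

/-- the fundamental lemma -/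
def FLStmt : Prop := ∀ r z : ℕ, 13 ≤ r → 2 ≤ z → ∃ lam e : ℕ → ℝ,
  (∀ d, |lam d| ≤ 1) ∧ (∀ d, |e d| ≤ 1) ∧
  (∀ d, lam d ≠ 0 ∨ e d ≠ 0 → 1 ≤ d ∧ d ≤ z ^ (4 * r + 6)) ∧
  (∀ n, 1 ≤ n → 0 ≤ ∑ d ∈ n.divisors, lam d - Rgh z n ∧
    ∑ d ∈ n.divisors, lam d - Rgh z n ≤ ∑ d ∈ n.divisors, e d) ∧
  ∑ d ∈ Icc 1 (z ^ (4 * r + 6)), e d / d ≤ 2 ^ 25 / 4 ^ r / Real.log z ∧
  ∑ d ∈ Icc 1 (z ^ (4 * r + 6)), lam d / d ≤ 2 / Real.log z

/-- weighted sum over subsets -/
noncomputable def WS (P : Finset ℕ) (c : Finset ℕ → ℝ) (t : ℕ → ℝ) : ℝ :=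
  ∑ S ∈ P.powerset, c S * ∏ p ∈ S, t p

lemma WS_congr {P : Finset ℕ} {c c' : Finset ℕ → ℝ} (t : ℕ → ℝ) (h : ∀ S ⊆ P, c S = c' S) :
    WS P c t = WS P c' t :=
  sum_congr rfl fun S hS => by rw [h S (mem_powerset.1 hS)]

lemma WS_add (P : Finset ℕ) (c c' : Finset ℕ → ℝ) (t : ℕ → ℝ) :
    WS P (fun S => c S + c' S) t = WS P c t + WS P c' t := by
  simp only [WS, add_mul, sum_add_distrib]

lemma WS_neg (P : Finset ℕ) (c : Finset ℕ → ℝ) (t : ℕ → ℝ) :
    WS P (fun S => -c S) t = -WS P c t := by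
  simp only [WS, neg_mul, sum_neg_distrib]

lemma WS_insert {P : Finset ℕ} {p : ℕ} (hp : p ∉ P) (c : Finset ℕ → ℝ) (t : ℕ → ℝ) :
    WS (insert p P) c t = WS P c t + t p * WS P (fun S => c (insert p S)) t := by
  unfold WS
  rw [sum_powerset_insert hp, mul_sum]
  congr 1
  refine sum_congr rfl fun S hS => ?_
  rw [prod_insert fun h => hp (mem_powerset.1 hS h)]
  ring

lemma WS_union {P : Finset ℕ} (f : Finset ℕ → ℝ) (t : ℕ → ℝ) (B : Finset ℕ) :
    ∀ g : Finset ℕ → ℝ, Disjoint P B →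
      WS (P ∪ B) (fun S => f (S ∩ P) * g (S ∩ B)) t = WS P f t * WS B g t := by
  induction B using Finset.induction_on with
  | empty =>
    intro g _
    rw [union_empty, WS_congr t (c' := fun S => f S * g ∅) fun S hS => by
      rw [inter_eq_left.2 hS, inter_empty]]
    simp only [WS, powerset_empty, sum_singleton, prod_empty, mul_one, sum_mul]
    exact sum_congr rfl fun S _ => by ring
  | insert p B hp ih =>
    intro g hd
    have hpP : p ∉ P := disjoint_right.1 hd (mem_insert_self _ _)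
    have hd' : Disjoint P B := hd.mono_right (subset_insert _ _)
    have hpU : p ∉ P ∪ B := by simp [hpP, hp]
    rw [union_insert, WS_insert hpU, WS_insert hp, mul_add, ← ih g hd', mul_left_comm,
      ← ih (fun S => g (insert p S)) hd']
    congr 1
    · refine WS_congr t fun S hS => ?_
      rw [inter_insert_of_notMem fun h => hpU (hS h)]
    · congr 1
      refine WS_congr t fun S _ => ?_
      rw [insert_inter_of_notMem hpP, insert_inter_distrib]

/-- truncated Moebius weights -/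
noncomputable def trc (m : ℕ) (S : Finset ℕ) : ℝ := if S.card ≤ m then (-1) ^ S.card else 0

/-- subsets of a given size -/
noncomputable def eqc (m : ℕ) (S : Finset ℕ) : ℝ := if S.card = m then 1 else 0

lemma bonfer (t : ℕ → ℝ) (ht : ∀ p, 0 ≤ t p ∧ t p ≤ 1) (P : Finset ℕ) :
    ∀ m, 0 ≤ (-1) ^ m * (WS P (trc m) t - ∏ p ∈ P, (1 - t p)) := by
  induction P using Finset.induction_on with
  | empty => intro m; simp [WS, trc]
  | insert p P hp ih =>
    intro m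
    have h0 : 0 ≤ ∏ q ∈ P, (1 - t q) := prod_nonneg fun q _ => sub_nonneg.2 (ht q).2
    rw [WS_insert hp, prod_insert hp]
    rcases m with _ | m
    · rw [WS_congr t (c := fun S => trc 0 (insert p S)) (c' := fun _ => 0) fun S _ => by
        simp [trc]]
      have h1 := ih 0
      have h2 := mul_nonneg (ht p).1 h0
      simp only [WS, zero_mul, sum_const_zero, mul_zero, add_zero, pow_zero, one_mul] at h1 ⊢
      linarith
    · rw [WS_congr t (c := fun S => trc (m + 1) (insert p S)) (c' := fun S => -trc m S)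
        fun S hS => by
          simp only [trc, card_insert_of_notMem fun h => hp (hS h), Nat.add_le_add_iff_right]
          split_ifs
          · ring
          · simp, WS_neg]
      have h1 := ih (m + 1)
      have h2 := mul_nonneg (ht p).1 (ih m)
      rw [pow_succ] at h1 ⊢
      linarith

lemma eqc_nonneg (t : ℕ → ℝ) (ht : ∀ p, 0 ≤ t p ∧ t p ≤ 1) (P : Finset ℕ) (m : ℕ) :
    0 ≤ WS P (eqc m) t :=
  sum_nonneg fun S _ => mul_nonneg (by unfold eqc; split_ifs <;> norm_num)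
    (prod_nonneg fun p _ => (ht p).1)

lemma bonfer2 (t : ℕ → ℝ) (ht : ∀ p, 0 ≤ t p ∧ t p ≤ 1) (P : Finset ℕ) (r : ℕ) :
    ∏ p ∈ P, (1 - t p) ≤ WS P (trc (2 * r)) t ∧
      WS P (trc (2 * r)) t - ∏ p ∈ P, (1 - t p) ≤ WS P (eqc (2 * r + 1)) t := by
  have h1 := bonfer t ht P (2 * r)
  have h2 := bonfer t ht P (2 * r + 1)
  have h3 : WS P (trc (2 * r + 1)) t = WS P (trc (2 * r)) t + -WS P (eqc (2 * r + 1)) t := by
    rw [← WS_neg, ← WS_add]
    refine WS_congr t fun S _ => ?_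
    unfold trc eqc
    by_cases a : S.card = 2 * r + 1
    · rw [if_pos a.le, if_neg (by omega), if_pos a, a, pow_succ, pow_mul]
      norm_num
    · by_cases b : S.card ≤ 2 * r
      · rw [if_pos (by omega), if_pos b, if_neg a]
        ring
      · rw [if_neg (by omega), if_neg b, if_neg a]
        ring
  rw [pow_succ, h3] at h2
  rw [pow_mul] at h1 h2
  norm_num at h1 h2
  constructor <;> linarith

/-- the reciprocal weights -/
noncomputable def rc (p : ℕ) : ℝ := (p : ℝ)⁻¹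

lemma rc_mem (p : ℕ) : 0 ≤ rc p ∧ rc p ≤ 1 :=
  ⟨by unfold rc; positivity, Nat.cast_inv_le_one p⟩

lemma eqc_le {P : Finset ℕ} (hP : ∑ l ∈ P, (l : ℝ)⁻¹ ≤ 4) (h2 : ∀ l ∈ P, 2 ≤ l) (r : ℕ) :
    WS P (eqc (2 * r + 1)) rc ≤ 2 ^ 23 / 4 ^ r * WS P (trc (2 * r)) rc := by
  have h1 : WS P (eqc (2 * r + 1)) rc = sg P (2 * r + 1) := by
    unfold WS sg eqc rc
    rw [powersetCard_eq_filter, sum_filter]
    exact sum_congr rfl fun S _ => by split_ifs <;> simp
  have h3 := sg_le P hP (2 * r + 1)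
  have h4 := euler_ge P hP h2
  have h5 := (bonfer2 rc rc_mem P r).1
  have h6 : ∏ l ∈ P, (1 + (-1) * (l : ℝ)⁻¹) = ∏ p ∈ P, (1 - rc p) :=
    prod_congr rfl fun p _ => by unfold rc; ring
  rw [h1]
  refine h3.trans (le_trans (le_of_eq ?_)
    (mul_le_mul_of_nonneg_left ((h4.trans h6.le).trans h5) (by positivity)))
  rw [pow_succ, pow_mul]
  norm_num
  rw [one_div, inv_pow]
  field_simp
  norm_num

lemma blk_union {s t : ℕ} (h : s ≤ t) : blk 0 s ∪ blk s t = blk 0 t := by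
  ext p
  simp only [mem_union, mem_blk]
  by_cases hp : p.Prime
  · simp only [hp, and_true]
    omega
  · simp [hp]

lemma blk_disj (s t : ℕ) : Disjoint (blk 0 s) (blk s t) := by
  refine disjoint_left.2 fun p h1 h2 => ?_
  have := mem_blk.1 h1
  have := mem_blk.1 h2
  omega

lemma weights (z : ℕ) : ∀ r : ℕ, ∃ cu ce : Finset ℕ → ℝ,
    (∀ S, |cu S| ≤ 1) ∧ (∀ S, |ce S| ≤ 1) ∧
    (∀ S ⊆ blk 0 z, cu S ≠ 0 ∨ ce S ≠ 0 → ∏ p ∈ S, p ≤ (max z 1) ^ (4 * r + 6)) ∧
    (∀ t : ℕ → ℝ, (∀ p, 0 ≤ t p ∧ t p ≤ 1) →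
      ∏ p ∈ blk 0 z, (1 - t p) ≤ WS (blk 0 z) cu t ∧
        WS (blk 0 z) cu t - ∏ p ∈ blk 0 z, (1 - t p) ≤ WS (blk 0 z) ce t) ∧
    WS (blk 0 z) ce rc ≤ 2 ^ 24 / 4 ^ r * WS (blk 0 z) cu rc := by
  induction z using Nat.strong_induction_on with
  | _ z ih =>
  intro r
  by_cases hz : z < 2
  · have he : blk 0 z = ∅ := eq_empty_of_forall_notMem fun p hp => by
      have := mem_blk.1 hp
      have := this.2.two_le
      omega
    refine ⟨fun _ => 1, fun _ => 0, by simp, by simp, fun S hS _ => ?_, fun t _ => ?_, ?_⟩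
    · rw [he, subset_empty] at hS
      rw [hS, prod_empty]
      exact Nat.one_le_pow _ _ (by omega)
    · simp [he, WS]
    · simp only [he, WS, powerset_empty, sum_singleton, prod_empty, mul_one]
      positivity
  have hz2 : 2 ≤ z := by omega
  have hs : Nat.sqrt z < z := Nat.sqrt_lt_self (by omega)
  have hs1 : 1 ≤ Nat.sqrt z := by rw [Nat.le_sqrt]; omega
  obtain ⟨cu, ce, h1, h2, h3, h4, h5⟩ := ih _ hs (r + 1)
  set P := blk 0 (Nat.sqrt z) with hP
  set B := blk (Nat.sqrt z) z with hB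
  have hU : P ∪ B = blk 0 z := blk_union hs.le
  have hD : Disjoint P B := blk_disj _ _
  have ht : ∀ m S, |trc m S| ≤ 1 := fun m S => by unfold trc; split_ifs <;> simp
  refine ⟨fun S => cu (S ∩ P) * trc (2 * r) (S ∩ B),
    fun S => ce (S ∩ P) * trc (2 * r) (S ∩ B) + cu (S ∩ P) * eqc (2 * r + 1) (S ∩ B),
    fun S => ?_, fun S => ?_, fun S hS hne => ?_, fun t htt => ?_, ?_⟩
  · rw [abs_mul]
    exact mul_le_one₀ (h1 _) (abs_nonneg _) (ht _ _)
  · by_cases a : (S ∩ B).card = 2 * r + 1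
    · simp only [trc, eqc, if_pos a, if_neg (show ¬(S ∩ B).card ≤ 2 * r by omega), mul_zero,
        zero_add, mul_one]
      exact h1 _
    · simp only [eqc, if_neg a, mul_zero, add_zero]
      rw [abs_mul]
      exact mul_le_one₀ (h2 _) (abs_nonneg _) (ht _ _)
  · have a1 : cu (S ∩ P) ≠ 0 ∨ ce (S ∩ P) ≠ 0 := by
      by_contra a
      push Not at a
      simp [a.1, a.2] at hne
    have a2 : (S ∩ B).card ≤ 2 * r + 1 := by
      by_contra a
      simp [trc, eqc, show ¬(S ∩ B).card ≤ 2 * r by omega,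
        show ¬(S ∩ B).card = 2 * r + 1 by omega] at hne
    have a3 := h3 _ inter_subset_right a1
    have a4 : ∏ p ∈ S ∩ B, p ≤ z ^ (2 * r + 1) :=
      (prod_le_pow_card _ _ z fun p hp => (mem_blk.1 (mem_inter.1 hp).2).1.2).trans
        (Nat.pow_le_pow_right (by omega) a2)
    have a5 : S = S ∩ P ∪ S ∩ B := by rw [← inter_union_distrib_left, hU, inter_eq_left.2 hS]
    rw [a5, prod_union (hD.mono inter_subset_right inter_subset_right), max_eq_left (by omega)]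
    rw [max_eq_left hs1, show 4 * (r + 1) + 6 = 2 * (2 * r + 5) by ring, pow_mul] at a3
    calc _ ≤ z ^ (2 * r + 5) * z ^ (2 * r + 1) :=
          Nat.mul_le_mul (a3.trans (Nat.pow_le_pow_left (Nat.sqrt_le' z) _)) a4
      _ = _ := by rw [← pow_add]; congr 1; ring
  · rw [← hU, WS_add, WS_union _ _ _ _ hD, WS_union _ _ _ _ hD, WS_union _ _ _ _ hD,
      prod_union hD]
    obtain ⟨b1, b2⟩ := h4 t htt
    obtain ⟨b3, b4⟩ := bonfer2 t htt B r
    have b5 : 0 ≤ ∏ p ∈ P, (1 - t p) := prod_nonneg fun q _ => sub_nonneg.2 (htt q).2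
    have b6 : 0 ≤ ∏ p ∈ B, (1 - t p) := prod_nonneg fun q _ => sub_nonneg.2 (htt q).2
    have b7 := eqc_nonneg t htt B (2 * r + 1)
    refine ⟨mul_le_mul b1 b3 b6 (b5.trans b1), ?_⟩
    nlinarith [mul_le_mul_of_nonneg_right b2 (b6.trans b3), mul_le_mul_of_nonneg_left b4 b5,
      mul_le_mul_of_nonneg_right b1 b7]
  · rw [← hU, WS_add, WS_union _ _ _ _ hD, WS_union _ _ _ _ hD, WS_union _ _ _ _ hD]
    have b1 := (h4 rc rc_mem).1
    have b3 := (bonfer2 rc rc_mem B r).1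
    have b5 : 0 ≤ ∏ p ∈ P, (1 - rc p) := prod_nonneg fun q _ => sub_nonneg.2 (rc_mem q).2
    have b6 : 0 ≤ ∏ p ∈ B, (1 - rc p) := prod_nonneg fun q _ => sub_nonneg.2 (rc_mem q).2
    have b7 := eqc_le (sum_inv_le z hz2) (fun l hl => (mem_blk.1 hl).2.two_le) r
    have b8 := mul_le_mul_of_nonneg_right h5 (b6.trans b3)
    have b9 := mul_le_mul_of_nonneg_left b7 (b5.trans b1)
    have b10 : (2 : ℝ) ^ 24 / 4 ^ (r + 1) + 2 ^ 23 / 4 ^ r ≤ 2 ^ 24 / 4 ^ r := by
      rw [pow_succ (4 : ℝ) r, mul_comm, ← div_div, ← add_div]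
      exact div_le_div_of_nonneg_right (by norm_num) (by positivity)
    have b11 := mul_le_mul_of_nonneg_right b10 (mul_nonneg (b5.trans b1) (b6.trans b3))
    linarith

lemma euler_le (z : ℕ) (hz : 2 ≤ z) : ∏ p ∈ blk 0 z, (1 - rc p) ≤ 1 / Real.log z := by
  let f : ℕ →* ℝ := ⟨⟨rc, by simp [rc]⟩, fun a b => by simp [rc, mul_comm]⟩
  have hf : ∀ {p : ℕ}, p.Prime → ‖f p‖ < 1 := fun {p} hp => by
    change ‖rc p‖ < 1
    rw [Real.norm_of_nonneg (rc_mem p).1]
    exact inv_lt_one_of_one_lt₀ (by exact_mod_cast hp.one_lt)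
  have h1 := (EulerProduct.summable_and_hasSum_smoothNumbers_prod_primesBelow_geometric hf
    (z + 1)).2
  have h2 : (z + 1).primesBelow = blk 0 z := by
    ext p
    rw [Nat.mem_primesBelow, mem_blk]
    constructor
    · exact fun h => ⟨⟨h.2.pos, by omega⟩, h.2⟩
    · exact fun h => ⟨by omega, h.2⟩
  rw [h2] at h1
  have h3 : ∑ n ∈ Icc 1 z, rc n ≤ ∏ p ∈ blk 0 z, (1 - rc p)⁻¹ := by
    have h4 := hasSum_subtype_iff_indicator.1 h1
    refine le_trans (le_of_eq ?_) (sum_le_hasSum (Icc 1 z) (fun n _ =>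
      Set.indicator_nonneg (fun m _ => (rc_mem m).1) n) h4)
    refine sum_congr rfl fun n hn => ?_
    have := mem_Icc.1 hn
    rw [Set.indicator_of_mem (Nat.mem_smoothNumbers_of_lt (by omega) (by omega))]
  have h4 : Real.log z ≤ ∑ n ∈ Icc 1 z, rc n := by
    have h5 := log_add_one_le_harmonic z
    rw [harmonic_eq_sum_Icc] at h5
    push_cast at h5
    exact (Real.log_le_log (by positivity) (by linarith)).trans h5
  have h5 : 0 < Real.log z := Real.log_pos (by exact_mod_cast hz)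
  have h6 : 0 < ∏ p ∈ blk 0 z, (1 - rc p) := prod_pos fun p hp =>
    sub_pos.2 (inv_lt_one_of_one_lt₀ (by exact_mod_cast (mem_blk.1 hp).2.one_lt))
  rw [prod_inv_distrib] at h3
  rw [le_div_iff₀ h5]
  have := mul_le_mul_of_nonneg_left (h4.trans h3) h6.le
  rwa [mul_inv_cancel₀ h6.ne'] at this

/-- weights on subsets of primes as weights on integers -/
noncomputable def lft (P : Finset ℕ) (c : Finset ℕ → ℝ) (d : ℕ) : ℝ :=
  ∑ S ∈ P.powerset.filter (fun S => ∏ p ∈ S, p = d), c S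

lemma lft_abs {P : Finset ℕ} (hP : ∀ p ∈ P, p.Prime) {c : Finset ℕ → ℝ} (hc : ∀ S, |c S| ≤ 1)
    (d : ℕ) : |lft P c d| ≤ 1 := by
  have h1 : (P.powerset.filter (fun S => ∏ p ∈ S, p = d)).card ≤ 1 := by
    refine card_le_one.2 fun S hS T hT => ?_
    obtain ⟨a1, a2⟩ := mem_filter.1 hS
    obtain ⟨b1, b2⟩ := mem_filter.1 hT
    rw [← Nat.primeFactors_prod fun p hp => hP p (mem_powerset.1 a1 hp),
      ← Nat.primeFactors_prod fun p hp => hP p (mem_powerset.1 b1 hp), a2, b2]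
  refine (abs_sum_le_sum_abs _ _).trans ((sum_le_card_nsmul _ _ 1 fun S _ => hc S).trans ?_)
  rw [nsmul_eq_mul, mul_one]
  exact_mod_cast h1

lemma lft_ne {P : Finset ℕ} {c : Finset ℕ → ℝ} {d : ℕ} (h : lft P c d ≠ 0) :
    ∃ S ⊆ P, c S ≠ 0 ∧ ∏ p ∈ S, p = d := by
  obtain ⟨S, hS, h2⟩ := exists_ne_zero_of_sum_ne_zero h
  exact ⟨S, mem_powerset.1 (mem_filter.1 hS).1, h2, (mem_filter.1 hS).2⟩

lemma lft_sum (P : Finset ℕ) (c : Finset ℕ → ℝ) (D : Finset ℕ) (w : ℕ → ℝ) :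
    ∑ d ∈ D, lft P c d * w d =
      ∑ S ∈ P.powerset, if ∏ p ∈ S, p ∈ D then c S * w (∏ p ∈ S, p) else 0 := by
  simp only [lft, sum_filter, sum_mul]
  rw [sum_comm]
  refine sum_congr rfl fun S _ => ?_
  simp only [ite_mul, zero_mul]
  rw [sum_ite_eq]

lemma lft_div {P : Finset ℕ} (hP : ∀ p ∈ P, p.Prime) (c : Finset ℕ → ℝ) {n : ℕ} (hn : 1 ≤ n) :
    ∑ d ∈ n.divisors, lft P c d = WS P c (fun p => if p ∣ n then 1 else 0) := by
  have h := lft_sum P c n.divisors fun _ => 1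
  simp only [mul_one] at h
  rw [h]
  refine sum_congr rfl fun S hS => ?_
  have hS' : ∀ p ∈ S, p.Prime := fun p hp => hP p (mem_powerset.1 hS hp)
  rw [prod_ite_zero, prod_const_one]
  by_cases a : ∀ p ∈ S, p ∣ n
  · rw [if_pos a, if_pos (Nat.mem_divisors.2 ⟨Finset.prod_primes_dvd n
      (fun p hp => (hS' p hp).prime) a, by omega⟩), mul_one]
  · rw [if_neg a, if_neg fun b => a fun p hp =>
      (dvd_prod_of_mem _ hp).trans (Nat.dvd_of_mem_divisors b), mul_zero]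

lemma lft_rc {P : Finset ℕ} (hP : ∀ p ∈ P, p.Prime) (c : Finset ℕ → ℝ) {D : ℕ}
    (hD : ∀ S ⊆ P, c S ≠ 0 → ∏ p ∈ S, p ≤ D) :
    ∑ d ∈ Icc 1 D, lft P c d / d = WS P c rc := by
  simp only [div_eq_mul_inv]
  rw [lft_sum]
  refine sum_congr rfl fun S hS => ?_
  by_cases a : c S = 0
  · simp [a]
  · rw [if_pos (mem_Icc.2 ⟨prod_pos fun p hp => (hP p (mem_powerset.1 hS hp)).pos,
      hD S (mem_powerset.1 hS) a⟩)]
    simp [rc]

lemma rgh_eq (z n : ℕ) :
    Rgh z n = ∏ p ∈ blk 0 z, (1 - (if p ∣ n then (1 : ℝ) else 0)) := by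
  unfold Rgh
  split_ifs with h
  · refine (prod_eq_one fun p hp => ?_).symm
    have := mem_blk.1 hp
    rw [if_neg fun a => by have := h p this.2 a; omega, sub_zero]
  · push Not at h
    obtain ⟨p, h1, h2, h3⟩ := h
    exact (prod_eq_zero (mem_blk.2 ⟨⟨h1.pos, h3⟩, h1⟩) (by simp [h2])).symm

theorem fl_all : FLStmt := by
  intro r z hr hz
  obtain ⟨cu, ce, h1, h2, h3, h4, h5⟩ := weights z r
  have hP : ∀ p ∈ blk 0 z, p.Prime := fun p hp => (mem_blk.1 hp).2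
  rw [max_eq_left (by omega)] at h3
  have hs : (2 : ℝ) ^ 24 / 4 ^ r ≤ 1 / 2 := by
    rw [div_le_iff₀ (by positivity)]
    have : (4 : ℝ) ^ 13 ≤ 4 ^ r := pow_le_pow_right₀ (by norm_num) hr
    norm_num at this ⊢
    linarith
  obtain ⟨b1, b2⟩ := h4 rc rc_mem
  have b5 : 0 ≤ ∏ p ∈ blk 0 z, (1 - rc p) := prod_nonneg fun q _ => sub_nonneg.2 (rc_mem q).2
  have b6 := mul_le_mul_of_nonneg_right hs (b5.trans b1)
  have b7 := euler_le z hz
  have b8 : WS (blk 0 z) cu rc ≤ 2 / Real.log z := by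
    rw [show 2 / Real.log z = 2 * (1 / Real.log z) by ring]
    linarith
  refine ⟨lft (blk 0 z) cu, lft (blk 0 z) ce, lft_abs hP h1, lft_abs hP h2, fun d hd => ?_,
    fun n hn => ?_, ?_, ?_⟩
  · have : ∃ S ⊆ blk 0 z, (cu S ≠ 0 ∨ ce S ≠ 0) ∧ ∏ p ∈ S, p = d := by
      rcases hd with hd | hd
      · obtain ⟨S, a, b, c⟩ := lft_ne hd
        exact ⟨S, a, Or.inl b, c⟩
      · obtain ⟨S, a, b, c⟩ := lft_ne hd
        exact ⟨S, a, Or.inr b, c⟩
    obtain ⟨S, a, b, rfl⟩ := this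
    exact ⟨prod_pos fun p hp => (hP p (a hp)).pos, h3 S a b⟩
  · rw [lft_div hP _ hn, lft_div hP _ hn, rgh_eq]
    have := h4 (fun p => if p ∣ n then 1 else 0) fun p => by split_ifs <;> norm_num
    exact ⟨sub_nonneg.2 this.1, this.2⟩
  · rw [lft_rc hP _ fun S a b => h3 S a (Or.inr b)]
    refine h5.trans ((mul_le_mul_of_nonneg_left b8 (by positivity)).trans (le_of_eq ?_))
    ring
  · rw [lft_rc hP _ fun S a b => h3 S a (Or.inl b)]
    exact b8

end Pool.Agent.MP_c853c5_nt.B
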