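import Pool.Agent.MP_c853c5_nt.B.Defs
import Pool.Agent.MP_c853c5_nt.B.FL

/-!
Linearity, dyadic splitting, supports and projections.
-/

set_option autoImplicit false

open Finset Filter

namespace Pool.Agent.MP_c853c5_nt.B

open Pool.Agent.MP_c853c5_nt.S

lemma SS_eq (x D : ℝ) (f : AF) : SS x D f = L.SS x D f := rfl

lemma zt_apply {n : ℕ} (hn : n ≠ 0) : zt n = 1 := by simp [zt, hn]

lemma zt_nonneg (n : ℕ) : 0 ≤ zt n := by
  rcases eq_or_ne n 0 with rfl | h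
  · simp
  · rw [zt_apply h]; norm_num

lemma mul_zt_apply (f : AF) (n : ℕ) : (f * zt) n = ∑ d ∈ n.divisors, f d :=
  ArithmeticFunction.coe_mul_zeta_apply

lemma af_sum_apply {ι : Type} (s : Finset ι) (f : ι → AF) (n : ℕ) :
    (∑ i ∈ s, f i) n = ∑ i ∈ s, f i n := by
  classical
  induction s using Finset.induction_on with
  | empty => simp
  | insert i s hi ih => rw [sum_insert hi, sum_insert hi, ArithmeticFunction.add_apply, ih]

lemma af_sub_apply (f g : AF) (n : ℕ) : (f - g) n = f n - g n := by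
  have h : (f - g + g) n = (f - g) n + g n := ArithmeticFunction.add_apply
  rw [sub_add_cancel] at h
  linarith

/-- linear combinations on the window -/
lemma SS_comb {ι : Type} {x : ℝ} (hx : 0 ≤ x) (D : ℝ) (s : Finset ι) (c : ι → ℝ) (f : ι → AF)
    (g : AF) (h : ∀ n : ℕ, x / 2 < (n : ℝ) → (n : ℝ) ≤ 2 * x → g n = ∑ i ∈ s, c i * f i n) :
    SS x D g = ∑ i ∈ s, c i * SS x D (f i) := by
  simp only [SS, mul_sum]
  rw [sum_comm]
  refine sum_congr rfl fun n hn => ?_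
  rw [h n ((L.mem_win hx).1 hn).1 ((L.mem_win hx).1 hn).2, sum_mul]
  exact sum_congr rfl fun i _ => by ring

lemma Dl_comb {ι : Type} {x : ℝ} (hx : 0 ≤ x) (t : ℝ) (s : Finset ι) (c : ι → ℝ) (f : ι → AF)
    (g : AF) (h : ∀ n : ℕ, x / 2 < (n : ℝ) → (n : ℝ) ≤ 2 * x → g n = ∑ i ∈ s, c i * f i n) :
    Dl t x g = ∑ i ∈ s, c i * Dl t x (f i) := by
  simp only [Dl, SB, mul_sub, sum_sub_distrib]
  rw [SS_comb hx _ s c f g h, SS_comb hx _ s c f g h]

lemma SS_sum' {ι : Type} {x : ℝ} (hx : 0 ≤ x) (D : ℝ) (s : Finset ι) (f : ι → AF)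
    (g : AF) (h : ∀ n : ℕ, x / 2 < (n : ℝ) → (n : ℝ) ≤ 2 * x → g n = ∑ i ∈ s, f i n) :
    SS x D g = ∑ i ∈ s, SS x D (f i) := by
  simpa using SS_comb hx D s (fun _ => 1) f g (by simpa using h)

lemma Dl_sum' {ι : Type} {x : ℝ} (hx : 0 ≤ x) (t : ℝ) (s : Finset ι) (f : ι → AF)
    (g : AF) (h : ∀ n : ℕ, x / 2 < (n : ℝ) → (n : ℝ) ≤ 2 * x → g n = ∑ i ∈ s, f i n) :
    Dl t x g = ∑ i ∈ s, Dl t x (f i) := by
  simpa using Dl_comb hx t s (fun _ => 1) f g (by simpa using h)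

lemma Dl_zero' {x : ℝ} (hx : 0 ≤ x) (t : ℝ) (g : AF)
    (h : ∀ n : ℕ, x / 2 < (n : ℝ) → (n : ℝ) ≤ 2 * x → g n = 0) : Dl t x g = 0 := by
  simpa using Dl_sum' hx t (∅ : Finset Unit) (fun _ => 0) g (by simpa using h)

lemma SS_le {x D : ℝ} (hx : 0 ≤ x) (hD : 0 ≤ D) {f g : AF}
    (h : ∀ n : ℕ, x / 2 < (n : ℝ) → (n : ℝ) ≤ 2 * x → f n ≤ g n) : SS x D f ≤ SS x D g :=
  L.SS_mono hx hD h

lemma SS_nn {x D : ℝ} (hx : 0 ≤ x) (hD : 0 ≤ D) {f : AF}
    (h : ∀ n : ℕ, x / 2 < (n : ℝ) → (n : ℝ) ≤ 2 * x → 0 ≤ f n) : 0 ≤ SS x D f :=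
  sum_nonneg fun n hn => mul_nonneg (h n ((L.mem_win hx).1 hn).1 ((L.mem_win hx).1 hn).2)
    (L.gg_nonneg hD _)

lemma SS_sub' (x D : ℝ) (f g : AF) : SS x D (f - g) = SS x D f - SS x D g := by
  simp only [SS, af_sub_apply, sub_mul, sum_sub_distrib]

lemma Dl_sub' (t x : ℝ) (f g : AF) : Dl t x (f - g) = Dl t x f - Dl t x g := by
  simp only [Dl, SB, SS_sub']
  ring

/-- a function squeezed between `0` and `E` -/
lemma abs_Dl_le {x : ℝ} (hx : 0 ≤ x) (t : ℝ) {f E : AF}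
    (h : ∀ n : ℕ, x / 2 < (n : ℝ) → (n : ℝ) ≤ 2 * x → 0 ≤ f n ∧ f n ≤ E n) :
    |Dl t x f| ≤ |Dl t x E| + 2 * SB x E := by
  have h1 := SS_nn hx (Real.rpow_nonneg hx (-t)) fun n a b => (h n a b).1
  have h2 := SS_nn hx (Real.rpow_nonneg hx (-(1 / 1000))) fun n a b => (h n a b).1
  have h3 := SS_le hx (Real.rpow_nonneg hx (-t)) fun n a b => (h n a b).2
  have h4 := SS_le hx (Real.rpow_nonneg hx (-(1 / 1000))) fun n a b => (h n a b).2
  have h5 := le_abs_self (Dl t x E)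
  have h6 := abs_nonneg (Dl t x E)
  unfold Dl SB at *
  rw [abs_le]
  constructor <;> linarith

lemma mul_ne_zero_ex {f g : AF} {n : ℕ} (h : (f * g) n ≠ 0) :
    ∃ a b : ℕ, f a ≠ 0 ∧ g b ≠ 0 ∧ a * b = n := by
  rw [ArithmeticFunction.mul_apply] at h
  obtain ⟨p, hp, hne⟩ := exists_ne_zero_of_sum_ne_zero h
  exact ⟨p.1, p.2, left_ne_zero_of_mul hne, right_ne_zero_of_mul hne,
    (Nat.mem_divisorsAntidiagonal.1 hp).1⟩

lemma prod_ne_zero_ex' {ι : Type} (s : Finset ι) (g : ι → AF) :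
    ∀ n : ℕ, (∏ i ∈ s, g i) n ≠ 0 → ∃ m : ι → ℕ, (∀ i ∈ s, g i (m i) ≠ 0) ∧ ∏ i ∈ s, m i = n := by
  classical
  induction s using Finset.induction_on with
  | empty =>
    intro n hn
    rw [prod_empty, ArithmeticFunction.one_apply] at hn
    exact ⟨fun _ => 1, by simp, by by_contra a; exact hn (if_neg fun b => a (by simp [b]))⟩
  | insert i s hi ih =>
    intro n hn
    rw [prod_insert hi] at hn
    obtain ⟨a, b, h1, h2, h3⟩ := mul_ne_zero_ex hn
    obtain ⟨m, h4, h5⟩ := ih b h2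
    have h6 : ∀ j ∈ s, Function.update m i a j = m j := fun j hj =>
      Function.update_of_ne (ne_of_mem_of_not_mem hj hi) _ _
    refine ⟨Function.update m i a, fun j hj => ?_, ?_⟩
    · rcases mem_insert.1 hj with rfl | hj
      · rwa [Function.update_self]
      · rw [h6 j hj]; exact h4 j hj
    · rw [prod_insert hi, Function.update_self, prod_congr rfl h6, h5, h3]

/-- the support of a product -/
lemma prod_ne_zero_ex {ι : Type} [Fintype ι] {g : ι → AF} {h : AF} {n : ℕ}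
    (hn : ((∏ i, g i) * h) n ≠ 0) :
    ∃ (m : ι → ℕ) (l : ℕ), (∀ i, g i (m i) ≠ 0) ∧ h l ≠ 0 ∧ (∏ i, m i) * l = n := by
  obtain ⟨a, l, h1, h2, h3⟩ := mul_ne_zero_ex hn
  obtain ⟨m, h4, h5⟩ := prod_ne_zero_ex' _ _ a h1
  exact ⟨m, l, fun i => h4 i (mem_univ i), h2, by rw [h5, h3]⟩

lemma prod_apply_congr {ι : Type} (s : Finset ι) {g g' : ι → AF} {X : ℕ}
    (h : ∀ i ∈ s, ∀ d, d ≤ X → g i d = g' i d) :
    ∀ n, n ≤ X → (∏ i ∈ s, g i) n = (∏ i ∈ s, g' i) n := by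
  classical
  induction s using Finset.induction_on with
  | empty => simp
  | insert i s hi ih =>
    intro n hn
    rw [prod_insert hi, prod_insert hi, ArithmeticFunction.mul_apply, ArithmeticFunction.mul_apply]
    refine sum_congr rfl fun p hp => ?_
    have a1 := Nat.divisor_le (Nat.fst_mem_divisors_of_mem_antidiagonal hp)
    have a2 := Nat.divisor_le (Nat.snd_mem_divisors_of_mem_antidiagonal hp)
    rw [h i (mem_insert_self _ _) _ (a1.trans hn),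
      ih (fun j hj => h j (mem_insert_of_mem hj)) _ (a2.trans hn)]

lemma prod_apply_mono {ι : Type} (s : Finset ι) {g g' : ι → AF} {X : ℕ}
    (h0 : ∀ i ∈ s, ∀ d, 0 ≤ g i d) (h : ∀ i ∈ s, ∀ d, d ≤ X → g i d ≤ g' i d) :
    ∀ n, n ≤ X → (∏ i ∈ s, g i) n ≤ (∏ i ∈ s, g' i) n := by
  classical
  induction s using Finset.induction_on with
  | empty => simp
  | insert i s hi ih =>
    intro n hn
    rw [prod_insert hi, prod_insert hi, ArithmeticFunction.mul_apply, ArithmeticFunction.mul_apply]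
    refine sum_le_sum fun p hp => ?_
    have a1 := Nat.divisor_le (Nat.fst_mem_divisors_of_mem_antidiagonal hp)
    have a2 := Nat.divisor_le (Nat.snd_mem_divisors_of_mem_antidiagonal hp)
    have a3 := h i (mem_insert_self _ _) _ (a1.trans hn)
    exact mul_le_mul a3 (ih (fun j hj => h0 j (mem_insert_of_mem hj))
      (fun j hj => h j (mem_insert_of_mem hj)) _ (a2.trans hn))
      (prod_apply_nonneg s g (fun j hj => h0 j (mem_insert_of_mem hj)) _)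
      ((h0 i (mem_insert_self _ _) _).trans a3)

lemma dy_apply (i : ℕ) (g : AF) (n : ℕ) :
    dy i g n = if 2 ^ i ≤ n ∧ n < 2 * 2 ^ i then g n else 0 := rfl

lemma dy_ne_zero {i : ℕ} {g : AF} {n : ℕ} (h : dy i g n ≠ 0) :
    g n ≠ 0 ∧ 2 ^ i ≤ n ∧ n < 2 * 2 ^ i := by
  rw [dy_apply] at h
  split_ifs at h with a
  · exact ⟨h, a⟩
  · exact absurd rfl h

lemma dy_nonneg (i : ℕ) {g : AF} (h : ∀ n, 0 ≤ g n) (n : ℕ) : 0 ≤ dy i g n := by
  rw [dy_apply]
  split_ifs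
  · exact h n
  · exact le_rfl

lemma slot_dy (i : ℕ) {g : AF} (h : ∀ n, |g n| ≤ 1) : Slot (2 ^ i) (dy i g) := by
  refine ⟨Nat.one_le_two_pow, fun n => ?_, fun n hn => (dy_ne_zero hn).2⟩
  rw [dy_apply]
  split_ifs
  · exact h n
  · simp

lemma dy_prI (i P Q : ℕ) : dy i (prI P Q) = prI (max P (2 ^ i - 1)) (min Q (2 * 2 ^ i - 1)) := by
  ext n
  have h1 : 1 ≤ 2 ^ i := Nat.one_le_two_pow
  rw [dy_apply]
  change (if _ then (if _ then (1 : ℝ) else 0) else 0) = if _ then (1 : ℝ) else 0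
  rw [← ite_and]
  refine if_congr ?_ rfl rfl
  rw [max_lt_iff, le_min_iff]
  by_cases hp : n.Prime
  · simp only [hp, and_true]
    omega
  · simp [hp]

lemma sum_dy (g : AF) {I n : ℕ} (hn : n < 2 ^ I) : (∑ i ∈ range I, dy i g) n = g n := by
  rw [af_sum_apply]
  rcases eq_or_ne n 0 with rfl | h0
  · simp
  have h1 : Nat.log 2 n < I := (Nat.log_lt_iff_lt_pow (by norm_num) h0).2 hn
  rw [sum_eq_single_of_mem (Nat.log 2 n) (mem_range.2 h1) fun i _ hi => ?_]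
  · rw [dy_apply, if_pos ⟨Nat.pow_log_le_self 2 h0, by
      rw [mul_comm, ← pow_succ]; exact Nat.lt_pow_succ_log_self (by norm_num) n⟩]
  · rw [dy_apply, if_neg fun a => hi (Nat.log_eq_of_pow_le_of_lt_pow a.1 (by
      rw [pow_succ, mul_comm]; exact a.2)).symm]

/-- dyadic splitting of a product -/
lemma prod_dy {ι : Type} [Fintype ι] [DecidableEq ι] (g : ι → AF) {I n : ℕ} (hn : n < 2 ^ I) :
    (∏ i, g i) n = ∑ c ∈ Fintype.piFinset fun _ : ι => range I, (∏ i, dy (c i) (g i)) n := by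
  rw [← af_sum_apply, ← prod_univ_sum (fun _ : ι => range I) fun i c => dy c (g i)]
  exact prod_apply_congr univ (X := n) (fun i _ d hd => (sum_dy _ (hd.trans_lt hn)).symm) n le_rfl

lemma prod_dy_mul {ι : Type} [Fintype ι] [DecidableEq ι] (g : ι → AF) (h : AF) {I n : ℕ}
    (hn : n < 2 ^ I) : ((∏ i, g i) * h) n =
      ∑ c ∈ Fintype.piFinset fun _ : ι => range I, ((∏ i, dy (c i) (g i)) * h) n := by
  rw [← af_sum_apply, ← sum_mul, mul_comm, mul_comm _ h]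
  rcases eq_or_ne n 0 with rfl | h0
  · simp
  refine mul_apply_congr h fun d hd => ?_
  rw [af_sum_apply]
  exact prod_dy g ((Nat.le_of_dvd (Nat.pos_of_ne_zero h0) hd).trans_lt hn)

/-- the number of dyadic scales -/
noncomputable def nI (x : ℝ) : ℕ := Nat.log 2 ⌊2 * x⌋₊ + 1

lemma lt_nI {x : ℝ} {n : ℕ} (hn : (n : ℝ) ≤ 2 * x) : n < 2 ^ nI x :=
  (Nat.le_floor hn).trans_lt (Nat.lt_pow_succ_log_self (by norm_num) _)

lemma nI_le {x : ℝ} (hx : 3 ≤ x) : (nI x : ℝ) ≤ 4 * Real.log x := by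
  have h0 : ⌊2 * x⌋₊ ≠ 0 := (Nat.floor_pos.2 (by linarith)).ne'
  have h1 : ((2 ^ Nat.log 2 ⌊2 * x⌋₊ : ℕ) : ℝ) ≤ 2 * x :=
    (Nat.cast_le.2 (Nat.pow_log_le_self 2 h0)).trans (Nat.floor_le (by linarith))
  have h2 := Real.log_le_log (by positivity) h1
  rw [Nat.cast_pow, Real.log_pow, Real.log_mul (by norm_num) (by linarith)] at h2
  have h3 : 1 ≤ Real.log x := by
    rw [Real.le_log_iff_exp_le (by linarith)]
    exact Real.exp_one_lt_d9.le.trans (by linarith)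
  have h4 := Real.log_two_gt_d9
  have h5 := Real.log_two_lt_d9
  have h6 : (0 : ℝ) ≤ (Nat.log 2 ⌊2 * x⌋₊ : ℕ) := Nat.cast_nonneg _
  unfold nI
  push_cast at h2 ⊢
  nlinarith

/-- moving a point of a box to total size one -/
lemma proj {ι : Type} [Fintype ι] (lo s : ι → ℝ) (h : ∀ i, lo i ≤ s i) (h1 : ∑ i, lo i ≤ 1)
    (h2 : 1 ≤ ∑ i, s i) : ∃ a : ι → ℝ, (∀ i, lo i ≤ a i ∧ a i ≤ s i ∧
      s i ≤ a i + (∑ i, s i - 1)) ∧ ∑ i, a i = 1 := by
  rcases h2.eq_or_lt with h3 | h3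
  · exact ⟨s, fun i => ⟨h i, le_rfl, by linarith⟩, h3.symm⟩
  set S := ∑ i, s i with hS
  set T := ∑ i, lo i with hT
  have h4 : 0 < S - T := by linarith
  set l := (S - 1) / (S - T) with hl
  have l0 : 0 ≤ l := div_nonneg (by linarith) h4.le
  have l1 : l ≤ 1 := (div_le_one h4).2 (by linarith)
  have l2 : l * (S - T) = S - 1 := div_mul_cancel₀ _ h4.ne'
  refine ⟨fun i => s i - l * (s i - lo i), fun i => ?_, ?_⟩
  · have a1 : s i - lo i ≤ S - T := by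
      rw [hS, hT, ← sum_sub_distrib]
      exact single_le_sum (f := fun i => s i - lo i) (fun j _ => sub_nonneg.2 (h j)) (mem_univ i)
    have a2 := sub_nonneg.2 (h i)
    refine ⟨by nlinarith, by nlinarith, by nlinarith [mul_le_mul_of_nonneg_left a1 l0]⟩
  · rw [sum_sub_distrib, ← mul_sum, sum_sub_distrib]
    linarith

lemma bf_apply (x : ℝ) (B : Blk) (m : ℕ) :
    bf x B m = by classical exact if B.Mem x m then 1 else 0 := rfl

lemma bf_nn (x : ℝ) (B : Blk) (m : ℕ) : 0 ≤ bf x B m := by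
  rw [bf_apply]; split_ifs <;> norm_num

lemma bf_abs (x : ℝ) (B : Blk) (m : ℕ) : |bf x B m| ≤ 1 := by
  rw [bf_apply]; split_ifs <;> norm_num

lemma bf_mem {x : ℝ} {B : Blk} {m : ℕ} (h : bf x B m ≠ 0) : B.Mem x m := by
  rw [bf_apply] at h
  by_contra a
  exact h (if_neg a)

lemma prI_apply (P Q n : ℕ) : prI P Q n = if P < n ∧ n ≤ Q ∧ n.Prime then 1 else 0 := rfl

lemma prI_nn (P Q n : ℕ) : 0 ≤ prI P Q n := by
  rw [prI_apply]; split_ifs <;> norm_num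

lemma prI_abs (P Q n : ℕ) : |prI P Q n| ≤ 1 := by
  rw [prI_apply]; split_ifs <;> norm_num

lemma prI_mem {P Q n : ℕ} (h : prI P Q n ≠ 0) : P < n ∧ n ≤ Q ∧ n.Prime := by
  rw [prI_apply] at h
  by_contra a
  exact h (if_neg a)

/-- a block of primes -/
lemma bf_isP {x : ℝ} (hx : 1 ≤ x) {B : Blk} (h : B.IsP) :
    bf x B = prI (max ⌊x ^ B.lo⌋₊ ⌊x ^ B.a⌋₊) ⌊x ^ B.hi⌋₊ := by
  obtain ⟨h1, h2, h3⟩ := h
  have x0 : 0 ≤ x := by linarith
  classical
  ext n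
  rw [bf_apply, prI_apply]
  refine if_congr ?_ rfl rfl
  rw [max_lt_iff, Nat.floor_lt (by positivity), Nat.floor_lt (by positivity),
    Nat.le_floor_iff (by positivity)]
  constructor
  · rintro ⟨a1, a2, a3, a4, -⟩
    have b1 : 1 < n := by exact_mod_cast (Real.one_le_rpow hx h1).trans_lt a2
    have b2 : n.Prime := by
      by_contra c
      have c1 := Nat.minFac_sq_le_self (by omega) c
      have c2 := a4 _ (Nat.minFac_prime (by omega)) (Nat.minFac_dvd n)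
      have c3 : ((n.minFac : ℕ) : ℝ) ^ 2 ≤ n := by exact_mod_cast c1
      have c4 : x ^ B.hi ≤ (x ^ B.a) ^ 2 := by
        rw [← Real.rpow_natCast, ← Real.rpow_mul x0]
        exact Real.rpow_le_rpow_of_exponent_le hx (by push_cast; linarith)
      have c5 := pow_lt_pow_left₀ c2 (by positivity) (two_ne_zero)
      linarith
    exact ⟨⟨a2, a4 n b2 dvd_rfl⟩, a3, b2⟩
  · rintro ⟨⟨a1, a2⟩, a3, a4⟩
    refine ⟨a4.ne_zero, a1, a3, fun p hp hd => ?_, by simp [h3]⟩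
    rwa [(Nat.prime_dvd_prime_iff_eq hp a4).1 hd]

open Classical in
/-- the free block below `2 x` -/
lemma bf_fr {x : ℝ} (hx : 2 ≤ x) (z : ℝ) {m : ℕ} (h0 : m ≠ 0) (hm : (m : ℝ) ≤ 2 * x) :
    bf x (fr z) m = if Rough x z m then 1 else 0 := by
  rw [bf_apply]
  refine if_congr ⟨fun h => h.2.2.2.1, fun h => ⟨h0, ?_, ?_, h, by simp [fr]⟩⟩ rfl rfl
  · exact (Real.rpow_lt_one_of_one_lt_of_neg (by linarith) (by norm_num [fr])).trans_le
      (by exact_mod_cast Nat.pos_of_ne_zero h0)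
  · change (m : ℝ) ≤ x ^ (2 : ℝ)
    rw [Real.rpow_two]
    nlinarith

lemma bf_fr_rgh {x : ℝ} (hx : 2 ≤ x) (z : ℝ) {m : ℕ} (h0 : m ≠ 0) (hm : (m : ℝ) ≤ 2 * x) :
    bf x (fr z) m = Rgh ⌊x ^ z⌋₊ m := by
  classical
  rw [bf_fr hx z h0 hm]
  unfold Rgh Rough
  refine if_congr (forall₃_congr fun p _ _ => ?_) rfl rfl
  rw [Nat.floor_lt (Real.rpow_nonneg (by linarith) _)]

end Pool.Agent.MP_c853c5_nt.B
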