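import Mathlib

/-!
An exact inclusion-exclusion identity for Dirichlet convolutions.
-/

set_option autoImplicit false

open Finset

namespace Pool.Agent.MP_c853c5_nt.B

/-- number of prime factors of `n` seen by `P` -/
noncomputable def cntP (P : ArithmeticFunction ℝ) (n : ℕ) : ℕ := by
  classical exact (n.primeFactors.filter fun p => P p = 1).card

lemma cntP_div {P : ArithmeticFunction ℝ} {n p : ℕ} (hn : n ≠ 0) (hp : p.Prime) (h1 : P p = 1)
    (hd : p ∣ n) (h2 : ¬p ^ 2 ∣ n) : cntP P n = cntP P (n / p) + 1 := by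
  classical
  obtain ⟨m, rfl⟩ := hd
  have hm : m ≠ 0 := fun h => hn (by simp [h])
  have hpm : ¬p ∣ m := fun h => h2 (by rw [sq]; exact Nat.mul_dvd_mul_left p h)
  rw [Nat.mul_div_cancel_left _ hp.pos]
  unfold cntP
  rw [Nat.primeFactors_mul hp.ne_zero hm, hp.primeFactors, ← insert_eq, filter_insert, if_pos h1,
    card_insert_of_notMem fun h => hpm (Nat.dvd_of_mem_primeFactors (mem_filter.1 h).1)]

lemma mul_apply_prime {P : ArithmeticFunction ℝ} (hP : ∀ p, P p = 0 ∨ (p.Prime ∧ P p = 1))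
    (F : ArithmeticFunction ℝ) {n : ℕ} (hn : n ≠ 0) :
    (P * F) n = ∑ p ∈ n.primeFactors.filter (fun p => P p = 1), F (n / p) := by
  classical
  rw [ArithmeticFunction.mul_apply, Nat.sum_divisorsAntidiagonal fun a b => P a * F b]
  symm
  refine sum_bij_ne_zero (fun p _ _ => p) (fun p hp _ => ?_) (fun _ _ _ _ _ _ h => h)
    (fun p hp h => ?_) fun p hp _ => ?_
  · exact Nat.mem_divisors.2 ⟨Nat.dvd_of_mem_primeFactors (mem_filter.1 hp).1, hn⟩
  · rcases hP p with a | a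
    · simp [a] at h
    · refine ⟨p, mem_filter.2 ⟨Nat.mem_primeFactors.2 ⟨a.1, Nat.dvd_of_mem_divisors hp, hn⟩,
        a.2⟩, fun b => h (by rw [b, mul_zero]), rfl⟩
  · rw [(mem_filter.1 hp).2, one_mul]

lemma pow_mul_apply {P R : ArithmeticFunction ℝ} (hP : ∀ p, P p = 0 ∨ (p.Prime ∧ P p = 1))
    (hR : ∀ p m : ℕ, P p = 1 → m ≠ 0 → R (p * m) = R m) (j : ℕ) :
    ∀ n : ℕ, n ≠ 0 → (∀ p, P p = 1 → ¬p ^ 2 ∣ n) →
      (P ^ j * R) n = ((cntP P n).descFactorial j : ℝ) * R n := by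
  classical
  induction j with
  | zero => intro n _ _; simp
  | succ j ih =>
    intro n hn hg
    rw [pow_succ', mul_assoc, mul_apply_prime hP _ hn]
    have h1 : ∀ p ∈ n.primeFactors.filter (fun p => P p = 1),
        (P ^ j * R) (n / p) = ((cntP P n - 1).descFactorial j : ℝ) * R n := by
      intro p hp
      obtain ⟨a1, a2⟩ := mem_filter.1 hp
      obtain ⟨b1, b2, -⟩ := Nat.mem_primeFactors.1 a1
      have b3 : n / p ≠ 0 := (Nat.div_pos (Nat.le_of_dvd (Nat.pos_of_ne_zero hn) b2) b1.pos).ne'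
      rw [ih _ b3 fun q hq h => hg q hq (h.trans (Nat.div_dvd_of_dvd b2)),
        cntP_div hn b1 a2 b2 (hg p a2), Nat.add_sub_cancel, ← hR p _ a2 b3,
        Nat.mul_div_cancel' b2]
    rw [sum_congr rfl h1, sum_const, nsmul_eq_mul, ← mul_assoc]
    congr 1
    change ((cntP P n : ℕ) : ℝ) * _ = _
    rcases cntP P n with _ | s
    · simp
    · rw [Nat.succ_descFactorial_succ, Nat.add_sub_cancel]
      push_cast
      ring

/-- inclusion-exclusion over the primes seen by `P` -/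
lemma incl_excl {P R : ArithmeticFunction ℝ} (hP : ∀ p, P p = 0 ∨ (p.Prime ∧ P p = 1))
    (hR : ∀ p m : ℕ, P p = 1 → m ≠ 0 → R (p * m) = R m) {J n : ℕ} (hn : n ≠ 0)
    (hg : ∀ p, P p = 1 → ¬p ^ 2 ∣ n) (hJ : cntP P n ≤ J) :
    ∑ j ∈ range (J + 1), (-1) ^ j / (j.factorial : ℝ) * (P ^ j * R) n =
      if cntP P n = 0 then R n else 0 := by
  have h1 : ∀ j ∈ range (J + 1), (-1) ^ j / (j.factorial : ℝ) * (P ^ j * R) n =
      ((-1) ^ j * ((cntP P n).choose j : ℝ)) * R n := by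
    intro j _
    rw [pow_mul_apply hP hR j n hn hg, Nat.descFactorial_eq_factorial_mul_choose]
    have : (j.factorial : ℝ) ≠ 0 := by positivity
    push_cast
    field_simp
  rw [sum_congr rfl h1, ← sum_mul]
  have h2 : ∑ j ∈ range (J + 1), ((-1 : ℝ) ^ j * ((cntP P n).choose j : ℝ)) =
      ∑ j ∈ range (cntP P n + 1), ((-1 : ℝ) ^ j * ((cntP P n).choose j : ℝ)) := by
    refine (sum_subset (range_subset_range.2 (by omega)) fun j _ hj => ?_).symm
    rw [Nat.choose_eq_zero_of_lt (by simpa using hj)]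
    simp
  have h3 := Int.alternating_sum_range_choose (n := cntP P n)
  have h4 : ∑ j ∈ range (cntP P n + 1), ((-1 : ℝ) ^ j * ((cntP P n).choose j : ℝ)) =
      if cntP P n = 0 then 1 else 0 := by
    have := congrArg (fun z : ℤ => (z : ℝ)) h3
    push_cast at this
    exact this
  rw [h2, h4]
  split_ifs <;> simp

lemma abs_mul_apply_le {f g : ArithmeticFunction ℝ} {n : ℕ} {A B : ℝ} (hA : 0 ≤ A)
    (hf : ∀ d, d ∣ n → |f d| ≤ A) (hg : ∀ d, d ∣ n → |g d| ≤ B) :
    |(f * g) n| ≤ n.divisors.card * (A * B) := by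
  rw [ArithmeticFunction.mul_apply, Nat.sum_divisorsAntidiagonal fun a b => f a * g b]
  refine (abs_sum_le_sum_abs _ _).trans ((sum_le_card_nsmul _ _ (A * B) fun d hd => ?_).trans
    (by rw [nsmul_eq_mul]))
  have h := Nat.dvd_of_mem_divisors hd
  rw [abs_mul]
  exact mul_le_mul (hf d h) (hg _ (Nat.div_dvd_of_dvd h)) (abs_nonneg _) hA

/-- a product of bounded functions is bounded by a power of the divisor function -/
lemma abs_prod_apply_le {ι : Type} (s : Finset ι) (f : ι → ArithmeticFunction ℝ)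
    (hf : ∀ i ∈ s, ∀ d, |f i d| ≤ 1) {X : ℕ} {Δ : ℝ} (h1 : 1 ≤ Δ)
    (hΔ : ∀ n : ℕ, n ≤ X → (n.divisors.card : ℝ) ≤ Δ) :
    ∀ n : ℕ, n ≤ X → |(∏ i ∈ s, f i) n| ≤ Δ ^ s.card := by
  classical
  induction s using Finset.induction_on with
  | empty =>
    intro n _
    rw [prod_empty, ArithmeticFunction.one_apply]
    split_ifs <;> simp
  | insert i s hi ih =>
    intro n hn
    rcases Nat.eq_zero_or_pos n with rfl | h0
    · simp only [ArithmeticFunction.map_zero, abs_zero]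
      positivity
    rw [prod_insert hi, card_insert_of_notMem hi, pow_succ']
    refine (abs_mul_apply_le zero_le_one (fun d _ => hf i (mem_insert_self _ _) d)
      fun d hd => ih (fun j hj => hf j (mem_insert_of_mem hj)) d
        ((Nat.le_of_dvd h0 hd).trans hn)).trans ?_
    rw [one_mul]
    exact mul_le_mul_of_nonneg_right (hΔ n hn) (by positivity)

lemma mul_apply_nonneg {f g : ArithmeticFunction ℝ} (hf : ∀ d, 0 ≤ f d) (hg : ∀ d, 0 ≤ g d)
    (n : ℕ) : 0 ≤ (f * g) n := by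
  rw [ArithmeticFunction.mul_apply]
  exact sum_nonneg fun _ _ => mul_nonneg (hf _) (hg _)

lemma prod_apply_nonneg {ι : Type} (s : Finset ι) (f : ι → ArithmeticFunction ℝ)
    (hf : ∀ i ∈ s, ∀ d, 0 ≤ f i d) : ∀ n, 0 ≤ (∏ i ∈ s, f i) n :=
  prod_induction f (fun g => ∀ n, 0 ≤ g n) (fun _ _ a b => mul_apply_nonneg a b)
    (fun n => by rw [ArithmeticFunction.one_apply]; split_ifs <;> norm_num) hf

lemma mul_apply_mono {f g g' : ArithmeticFunction ℝ} (hf : ∀ d, 0 ≤ f d) {n : ℕ}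
    (hg : ∀ d, d ∣ n → g d ≤ g' d) : (f * g) n ≤ (f * g') n := by
  rw [ArithmeticFunction.mul_apply, ArithmeticFunction.mul_apply]
  refine sum_le_sum fun a ha => mul_le_mul_of_nonneg_left (hg _ ?_) (hf _)
  exact Nat.dvd_of_mem_divisors (Nat.snd_mem_divisors_of_mem_antidiagonal ha)

lemma mul_apply_congr (f : ArithmeticFunction ℝ) {g g' : ArithmeticFunction ℝ} {n : ℕ}
    (hg : ∀ d, d ∣ n → g d = g' d) : (f * g) n = (f * g') n := by
  rw [ArithmeticFunction.mul_apply, ArithmeticFunction.mul_apply]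
  refine sum_congr rfl fun a ha => ?_
  rw [hg _ (Nat.dvd_of_mem_divisors (Nat.snd_mem_divisors_of_mem_antidiagonal ha))]

end Pool.Agent.MP_c853c5_nt.B
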