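import Pool.Agent.MP_c853c5_nt.S.Defs
import Pool.Agent.MP_c853c5_nt.L.Defs
import Pool.Agent.MP_c853c5_nt.B.Ident

/-!
The steps from the dyadic type I and type II bounds to the sifted leaves.
-/

set_option autoImplicit false

open Finset Filter

namespace Pool.Agent.MP_c853c5_nt.B

open Pool.Agent.MP_c853c5_nt.S

/-- the constant function one on the positive integers -/
noncomputable def zt : AF := (ArithmeticFunction.zeta : ArithmeticFunction ℝ)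

/-- the part of `g` in `[2 ^ i, 2 ^ (i + 1))` -/
noncomputable def dy (i : ℕ) (g : AF) : AF :=
  ⟨fun n => if 2 ^ i ≤ n ∧ n < 2 * 2 ^ i then g n else 0, by simp⟩

/-- the primes in `(x ^ κ, x ^ z]` -/
noncomputable def pz (x κ z : ℝ) : AF := prI ⌊x ^ κ⌋₊ ⌊x ^ z⌋₊

/-- the total weight of the window -/
def ZetaStmt : Prop := ∃ C : ℝ, 0 < C ∧ ∀ Y D : ℝ, 0 < Y → 0 < D → D ≤ 1 →
  |SS Y D zt - Y| ≤ C * (Y * D + 1 / D)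

/-- numbers divisible by a large square -/
def BadStmt : Prop := ∀ t κ : ℝ, t < 1 / 2 → 0 < κ → ∃ δ : ℝ, 0 < δ ∧ ∀ᶠ x : ℝ in atTop,
  ∀ (Δ : ℝ) (f : AF), x ^ (-t) ≤ Δ → Δ ≤ 1 →
    (∀ n : ℕ, (n : ℝ) ≤ 2 * x → |f n| ≤ x ^ δ) →
    (∀ n : ℕ, (n : ℝ) ≤ 2 * x → f n ≠ 0 → ∃ p : ℕ, x ^ κ < p ∧ p ^ 2 ∣ n) →
    |SS x Δ f| ≤ x ^ (1 - δ)

/-- type I for a dyadic box times sieve weights times the free variable -/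
def TIStmt : Prop := ∀ (ι : Type) [Fintype ι] (τ t η C : ℝ) (K : ℕ), 1 / 3 ≤ t → t < τ →
  τ ≤ 1 / 2 → 0 < η → η ≤ 1 / 1000 → 1 ≤ C → ∀ᶠ x : ℝ in atTop,
    ∀ (a : ι → ℝ) (b : ℝ) (N : ι → ℕ) (g : ι → AF) (lam : AF),
      (∀ i, 0 ≤ a i ∧ a i ≤ 1) → b ≤ 1 → E1pt τ η K a b → (∀ i, Slot (N i) (g i)) →
      (∀ i, (N i : ℝ) ≤ C * x ^ a i) → x ^ b * ∏ i, (N i : ℝ) ≤ C * x →
      x ≤ C * (x ^ b * ∏ i, (N i : ℝ)) → (∀ d, |lam d| ≤ 1) →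
      (∀ d : ℕ, lam d ≠ 0 → (d : ℝ) ≤ x ^ min (η / 20) ((τ - t) / 4)) →
      |Dl t x ((∏ i, g i) * (lam * zt))| ≤ x ^ (1 - η / 10)

/-- type II for a dyadic box times a free bounded factor -/
def T2Stmt : Prop := ∀ (ι : Type) [Fintype ι] (τ t η C : ℝ) (K A : ℕ), 1 / 3 ≤ t → t < τ →
  τ ≤ 1 / 2 → 0 < η → 1 ≤ C → ∀ᶠ x : ℝ in atTop,
    ∀ (pr : ι → Prop) (a : ι → ℝ) (b : ℝ) (N : ι → ℕ) (g : ι → AF) (h : AF),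
      (∀ i, 0 ≤ a i ∧ a i ≤ 1) → 0 ≤ b → b ≤ 1 →
      E2pt τ η K (fun o : Option ι => o.elim False pr) (fun o => o.elim b a) →
      (∀ i, Slot (N i) (g i)) → (∀ i, x ^ a i ≤ C * N i ∧ (N i : ℝ) ≤ C * x ^ a i) →
      (∀ i, pr i → ∃ P Q : ℕ, g i = prI P Q) → x ^ b * ∏ i, (N i : ℝ) ≤ C * x →
      x ≤ C * (x ^ b * ∏ i, (N i : ℝ)) → (∀ d, |h d| ≤ 1) →
      |Dl t x ((∏ i, g i) * h)| ≤ x / Real.log x ^ A

/-- the long sum of the error of the fundamental lemma -/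
def MassStmt : Prop := ∀ ε : ℝ, 0 < ε → ∀ᶠ x : ℝ in atTop, ∀ (G e : AF) (D : ℕ) (w μ : ℝ),
  0 ≤ w → (∀ m, 0 ≤ G m) → (∀ m : ℕ, G m ≠ 0 → (m : ℝ) ≤ x ^ (19 / 20 : ℝ)) →
    ∑ m ∈ Icc 1 ⌊2 * x⌋₊, G m / m ≤ μ → (∀ d, |e d| ≤ 1) → (∀ d, e d ≠ 0 → d ≤ D) →
    (D : ℝ) ≤ x ^ (1 / 20000 : ℝ) → ∑ d ∈ Icc 1 D, e d / d ≤ w / Real.log x →
    SB x (G * (e * zt)) ≤ μ * (w + ε) * (x / Real.log x)

/-- rough numbers have bounded logarithmic mass -/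
def LMStmt : Prop := ∃ M : ℝ, 1 ≤ M ∧ L.LM (fun x => bf x (fr (1 / 100))) M

/-- the body of `DustOK` for `j` small primes -/
def DustAt {r : ℕ} (τ η η' κ z : ℝ) (K : ℕ) (B : Fin r → Blk) (j : ℕ) : Prop :=
  ∀ (a : Fin r → ℝ) (q : Fin j → ℝ) (b : ℝ), InBox B a → (∀ i, κ ≤ q i ∧ q i ≤ z) →
    0 ≤ b → ∑ i, a i + ∑ i, q i + b = 1 →
    E1pt τ η K (Sum.elim a q) b ∨
      E2pt τ η' K
        (fun o : Option (Fin r ⊕ Fin j) =>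
          o.elim False (Sum.elim (fun i => (B i).IsP) fun _ => True))
        (fun o => o.elim b (Sum.elim a q))

/-- one term of the inclusion-exclusion -/
def TermStmt : Prop := ∃ M : ℝ, 1 ≤ M ∧ ∀ (τ t η η' κ z ε : ℝ) (K r j i : ℕ) (B : Fin r → Blk),
  1 / 3 ≤ t → t < τ → τ ≤ 1 / 2 → 0 < η → η ≤ 1 / 1000 → 0 < η' → 0 < κ → κ ≤ z → 0 < ε →
  13 ≤ i → κ * (4 * i + 6) ≤ min (η / 20) ((τ - t) / 4) → (∀ l, 1 / 100 ≤ (B l).a) →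
  DustAt τ η η' κ z K B j → ∀ᶠ x : ℝ in atTop,
    |Dl t x ((∏ l, bf x (B l)) * (pz x κ z ^ j * bf x (fr κ)))| ≤
      (M ^ r * Real.log (z / κ) ^ j * (2 ^ 27 / 4 ^ i / κ) + ε) * (x / Real.log x)

end Pool.Agent.MP_c853c5_nt.B
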