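import Pool.Agent.MP_c853c5_nt.B.Basic

/-!
Numbers divisible by a large square have a small smoothed sum.
-/

set_option autoImplicit false

open Finset Filter

namespace Pool.Agent.MP_c853c5_nt.B

open Pool.Agent.MP_c853c5_nt.S

namespace JBad

lemma sgl_apply (q n : ℕ) : sgl q n = if n = q ∧ n ≠ 0 then 1 else 0 := rfl

lemma sgl_nn (q n : ℕ) : 0 ≤ sgl q n := by
  rw [sgl_apply]
  split_ifs <;> norm_num

lemma sgl_zt_nn (q n : ℕ) : 0 ≤ (sgl q * zt) n := mul_apply_nonneg (sgl_nn q) zt_nonneg n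

lemma sgl_zt_one {q n : ℕ} (hn : n ≠ 0) (h : q ∣ n) : 1 ≤ (sgl q * zt) n := by
  rw [mul_zt_apply]
  have hq : q ≠ 0 := ne_zero_of_dvd_ne_zero hn h
  refine le_trans ?_ (single_le_sum (fun d _ => sgl_nn q d) (Nat.mem_divisors.2 ⟨h, hn⟩))
  rw [sgl_apply, if_pos ⟨rfl, hq⟩]

lemma SS_sgl (hC : L.ConvStmt) {x : ℝ} (hx : 0 < x) (D : ℝ) {q : ℕ} (h1 : 1 ≤ q)
    (h2 : q ≤ ⌊2 * x⌋₊) : SS x D (sgl q * zt) = SS (x / q) D zt := by
  rw [SS_eq, hC x D _ _ hx, sum_eq_single_of_mem q (mem_Icc.2 ⟨h1, h2⟩)]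
  · rw [sgl_apply, if_pos ⟨rfl, by omega⟩, one_mul, SS_eq]
  · intro m _ hm
    rw [sgl_apply, if_neg fun h => hm h.1, zero_mul]

lemma abs_SS_le {x D c : ℝ} (hx : 0 ≤ x) (hD : 0 ≤ D) (s : Finset ℕ) (F : ℕ → AF) (f : AF)
    (h : ∀ n : ℕ, x / 2 < (n : ℝ) → (n : ℝ) ≤ 2 * x → |f n| ≤ c * ∑ p ∈ s, F p n) :
    |SS x D f| ≤ c * ∑ p ∈ s, SS x D (F p) := by
  unfold SS
  rw [sum_comm, mul_sum]
  refine (abs_sum_le_sum_abs _ _).trans (sum_le_sum fun n hn => ?_)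
  have hw := (L.mem_win hx).1 hn
  have hg := L.gg_nonneg hD (Real.log x - Real.log n)
  rw [abs_mul, abs_of_nonneg hg, ← sum_mul, ← mul_assoc]
  exact mul_le_mul_of_nonneg_right (h n hw.1 hw.2) hg

lemma sqrt_le {x : ℝ} (hx : 0 < x) : (Nat.sqrt ⌊2 * x⌋₊ : ℝ) ≤ 2 * x ^ (1 / 2 : ℝ) := by
  have h1 : ((Nat.sqrt ⌊2 * x⌋₊ : ℝ)) ^ 2 ≤ 2 * x :=
    le_trans (by exact_mod_cast Nat.sqrt_le' _) (Nat.floor_le (by positivity))
  have h2 : (x ^ (1 / 2 : ℝ)) ^ 2 = x := by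
    rw [← Real.rpow_natCast, ← Real.rpow_mul hx.le]
    norm_num
  refine (abs_le_of_sq_le_sq' ?_ (by positivity)).2
  rw [mul_pow, h2]
  linarith

end JBad

open JBad in
theorem bad_stmt (hZ : ZetaStmt) (hC : L.ConvStmt) : BadStmt := by
  obtain ⟨C, hC0, hZ⟩ := hZ
  intro t κ ht hκ
  have hδ : 0 < min κ (1 / 2 - t) / 3 := by
    have : 0 < min κ (1 / 2 - t) := lt_min hκ (by linarith)
    linarith
  refine ⟨_, hδ, ?_⟩
  have h1 : 3 * (min κ (1 / 2 - t) / 3) ≤ κ := by linarith [min_le_left κ (1 / 2 - t)]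
  have h2 : 3 * (min κ (1 / 2 - t) / 3) ≤ 1 / 2 - t := by linarith [min_le_right κ (1 / 2 - t)]
  generalize min κ (1 / 2 - t) / 3 = δ at hδ h1 h2
  filter_upwards [L.ev_pos, (tendsto_rpow_atTop hδ).eventually_ge_atTop (2 + 4 * C)]
    with x hx hbig Δ f hΔ hΔ1 hf hs
  have x0 : 0 < x := by linarith
  have hΔ0 : 0 < Δ := (Real.rpow_pos_of_pos x0 _).trans_le hΔ
  have hinv : 1 / Δ ≤ x ^ t := by
    rw [div_le_iff₀ hΔ0]
    calc (1 : ℝ) = x ^ t * x ^ (-t) := by rw [← Real.rpow_add x0]; simp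
      _ ≤ x ^ t * Δ := by gcongr
  set s := Ioo ⌊x ^ κ⌋₊ (Nat.sqrt ⌊2 * x⌋₊ + 1) with hsd
  have a1 : |SS x Δ f| ≤ x ^ δ * ∑ p ∈ s, SS x Δ (sgl (p ^ 2) * zt) := by
    refine abs_SS_le x0.le hΔ0.le s (fun p => sgl (p ^ 2) * zt) f fun n hn1 hn2 => ?_
    have hnn : ∀ p ∈ s, 0 ≤ (sgl (p ^ 2) * zt) n := fun p _ => sgl_zt_nn _ _
    by_cases h0 : f n = 0
    · rw [h0, abs_zero]
      exact mul_nonneg (by positivity) (sum_nonneg hnn)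
    · obtain ⟨p, hp1, hp2⟩ := hs n hn2 h0
      have hn0 : n ≠ 0 := by
        rintro rfl
        simp at h0
      have hps : p ∈ s := by
        refine mem_Ioo.2 ⟨(Nat.floor_lt (by positivity)).2 hp1, Nat.lt_succ_of_le ?_⟩
        exact Nat.le_sqrt'.2 ((Nat.le_of_dvd (Nat.pos_of_ne_zero hn0) hp2).trans
          (Nat.le_floor hn2))
      refine (hf n hn2).trans (le_mul_of_one_le_right (by positivity) ?_)
      exact (sgl_zt_one hn0 hp2).trans (single_le_sum hnn hps)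
  have a2 : ∀ p ∈ s, SS x Δ (sgl (p ^ 2) * zt) ≤ (1 + C) * x * ((p : ℝ) ^ 2)⁻¹ + C * x ^ t := by
    intro p hp
    have hp' := mem_Ioo.1 hp
    have hp0 : 0 < p := by omega
    have hy : 0 < x / ((p ^ 2 : ℕ) : ℝ) := by positivity
    rw [SS_sgl hC x0 Δ (Nat.one_le_pow _ _ hp0) (Nat.le_sqrt'.1 (by omega))]
    have h3 := (abs_le.1 (hZ _ Δ hy hΔ0 hΔ1)).2
    have h4 : x / ((p ^ 2 : ℕ) : ℝ) * Δ ≤ x / ((p ^ 2 : ℕ) : ℝ) := mul_le_of_le_one_right hy.le hΔ1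
    have h5 : C * (x / ((p ^ 2 : ℕ) : ℝ) * Δ + 1 / Δ) ≤ C * (x / ((p ^ 2 : ℕ) : ℝ) + x ^ t) := by
      gcongr
    have h6 : x / ((p ^ 2 : ℕ) : ℝ) = x * ((p : ℝ) ^ 2)⁻¹ := by
      rw [Nat.cast_pow, div_eq_mul_inv]
    rw [h6] at h3 h5 ⊢
    linarith
  have a3 : ∑ p ∈ s, ((p : ℝ) ^ 2)⁻¹ ≤ 2 * x ^ (-κ) := by
    refine (sum_Ioo_inv_sq_le _ _).trans ?_
    rw [Real.rpow_neg x0.le, ← div_eq_mul_inv]
    exact div_le_div_of_nonneg_left (by norm_num) (by positivity) (Nat.lt_floor_add_one _).le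
  have a4 : (s.card : ℝ) ≤ 2 * x ^ (1 / 2 : ℝ) := by
    refine le_trans ?_ (sqrt_le x0)
    rw [hsd, Nat.card_Ioo]
    exact_mod_cast (by omega)
  have a5 : ∑ p ∈ s, SS x Δ (sgl (p ^ 2) * zt) ≤
      (1 + C) * x * (2 * x ^ (-κ)) + 2 * x ^ (1 / 2 : ℝ) * (C * x ^ t) := by
    refine (sum_le_sum a2).trans ?_
    rw [sum_add_distrib, ← mul_sum, sum_const, nsmul_eq_mul]
    gcongr
  have b1 : x * x ^ (-κ) ≤ x ^ (1 - 3 * δ) := by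
    calc x * x ^ (-κ) = x ^ (1 + -κ) := by rw [Real.rpow_add x0, Real.rpow_one]
      _ ≤ _ := Real.rpow_le_rpow_of_exponent_le hx.le (by linarith)
  have b2 : x ^ (1 / 2 : ℝ) * x ^ t ≤ x ^ (1 - 3 * δ) := by
    rw [← Real.rpow_add x0]
    exact Real.rpow_le_rpow_of_exponent_le hx.le (by linarith)
  have b3 : x ^ (1 - δ) = x ^ δ * (x ^ δ * x ^ (1 - 3 * δ)) := by
    rw [← Real.rpow_add x0, ← Real.rpow_add x0]
    congr 1
    ring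
  refine a1.trans ?_
  rw [b3]
  refine mul_le_mul_of_nonneg_left (a5.trans ?_) (by positivity)
  calc (1 + C) * x * (2 * x ^ (-κ)) + 2 * x ^ (1 / 2 : ℝ) * (C * x ^ t)
      = 2 * (1 + C) * (x * x ^ (-κ)) + 2 * C * (x ^ (1 / 2 : ℝ) * x ^ t) := by ring
    _ ≤ 2 * (1 + C) * x ^ (1 - 3 * δ) + 2 * C * x ^ (1 - 3 * δ) := by gcongr
    _ = (2 + 4 * C) * x ^ (1 - 3 * δ) := by ring
    _ ≤ _ := by gcongr

end Pool.Agent.MP_c853c5_nt.B
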