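import Pool.Agent.MP_c853c5_nt.B.Basic

/-! Rough numbers have bounded logarithmic mass. -/

set_option autoImplicit false

open Finset Filter

namespace Pool.Agent.MP_c853c5_nt.B

open Pool.Agent.MP_c853c5_nt.S

namespace JLM

theorem pow_nonneg' {P : AF} (h : ∀ n, 0 ≤ P n) (i : ℕ) : ∀ n, 0 ≤ (P ^ i) n := by
  induction i with
  | zero =>
    intro n
    rw [pow_zero, ArithmeticFunction.one_apply]
    split_ifs <;> norm_num
  | succ i ih =>
    intro n
    rw [pow_succ', ArithmeticFunction.mul_apply]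
    exact sum_nonneg fun p _ => mul_nonneg (h _) (ih _)

theorem key {P : AF} (h : ∀ n, 0 ≤ P n) {y : ℝ} (hy : 0 ≤ y) (m : ℕ) : m ≠ 0 →
    (∀ p : ℕ, p.Prime → p ∣ m → 1 ≤ P p ∧ y ≤ p) → ∃ i, 1 ≤ (P ^ i) m ∧ y ^ i ≤ m := by
  induction m using induction_on_primes with
  | zero => exact fun h => absurd rfl h
  | one => exact fun _ _ => ⟨0, by simp, by simp⟩
  | prime_mul p a hp ih =>
    intro h0 h1
    obtain ⟨i, h2, h3⟩ := ih (right_ne_zero_of_mul h0) fun q hq e => h1 q hq (e.mul_left p)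
    obtain ⟨h4, h5⟩ := h1 p hp (dvd_mul_right p a)
    refine ⟨i + 1, ?_, ?_⟩
    · rw [pow_succ', ArithmeticFunction.mul_apply]
      exact (one_le_mul_of_one_le_of_one_le h4 h2).trans
        (single_le_sum (f := fun x : ℕ × ℕ => P x.1 * (P ^ i) x.2)
          (fun q _ => mul_nonneg (h _) (pow_nonneg' h i _))
          (Nat.mem_divisorsAntidiagonal.2 ⟨(rfl : (p, a).1 * (p, a).2 = p * a), h0⟩))
    · rw [pow_succ', Nat.cast_mul]
      exact mul_le_mul h5 h3 (pow_nonneg hy i) (Nat.cast_nonneg p)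

theorem pz_nonneg (x κ z : ℝ) (n : ℕ) : 0 ≤ pz x κ z n := by
  change 0 ≤ ite _ (1 : ℝ) 0
  split_ifs <;> norm_num

theorem lm_sum {f : ℕ → L.Fam} {μ : ℕ → ℝ} (h : ∀ i, L.LM (f i) (μ i)) (n : ℕ) :
    L.LM (fun x => ∑ i ∈ range (n + 1), f i x) (∑ i ∈ range (n + 1), μ i) := by
  induction n with
  | zero => simpa using h 0
  | succ n ih =>
    simp only [sum_range_succ _ (n + 1)]
    exact ih.add (h _)

theorem sum_apply' (f : ℕ → AF) (n m : ℕ) : (∑ i ∈ range n, f i) m = ∑ i ∈ range n, f i m := by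
  induction n with
  | zero => simp
  | succ n ih => rw [sum_range_succ, sum_range_succ, ArithmeticFunction.add_apply, ih]

theorem le_sum {x : ℝ} (hx : 1 < x) (m : ℕ) :
    bf x (fr (1 / 100)) m ≤ (∑ i ∈ range (200 + 1), pz x (1 / 100) 2 ^ i) m := by
  have x0 : 0 < x := by linarith
  have hn := pow_nonneg' (pz_nonneg x (1 / 100) 2)
  rw [sum_apply', bf, ArithmeticFunction.coe_mk]
  split_ifs with h
  · obtain ⟨h0, -, h2, h3, -⟩ := h
    have h2' : (m : ℝ) ≤ x ^ (2 : ℝ) := h2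
    obtain ⟨i, h4, h5⟩ := key (pz_nonneg x (1 / 100) 2) (y := x ^ (1 / 100 : ℝ)) (by positivity)
      m h0 fun p hp e => by
        have h6 : x ^ (1 / 100 : ℝ) < p := h3 p hp e
        refine ⟨le_of_eq (if_pos ⟨(Nat.floor_lt (by positivity)).2 h6, Nat.le_floor ?_, hp⟩).symm,
          h6.le⟩
        exact (Nat.cast_le.2 (Nat.le_of_dvd (Nat.pos_of_ne_zero h0) e)).trans h2'
    have h6 := h5.trans h2'
    rw [← Real.rpow_mul_natCast x0.le, Real.rpow_le_rpow_left_iff hx] at h6
    have h7 : i ≤ 200 := by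
      have : (i : ℝ) ≤ 200 := by linarith
      exact_mod_cast this
    exact h4.trans (single_le_sum (f := fun i => (pz x (1 / 100) 2 ^ i) m) (fun j _ => hn j m)
      (mem_range.2 (Nat.lt_succ_of_le h7)))
  · exact sum_nonneg fun j _ => hn j m

end JLM

open JLM in
theorem lm_stmt (hP : L.LPrimeStmt) (hM : L.LMulStmt) : LMStmt := by
  have h0 : 0 ≤ Real.log (2 / (1 / 100)) := Real.log_nonneg (by norm_num)
  have h1 : L.LM (fun x => pz x (1 / 100) 2) (Real.log (2 / (1 / 100))) := by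
    refine hP _ _ _ (by norm_num) (by norm_num) ?_
    filter_upwards [L.ev_pos] with x hx n
    have x0 : 0 < x := by linarith
    change ite _ (1 : ℝ) 0 ≤ _
    refine le_of_eq (if_congr ?_ rfl rfl)
    rw [Nat.floor_lt (by positivity), Nat.le_floor_iff (by positivity)]
    tauto
  have h2 : ∀ i : ℕ, L.LM (fun x => pz x (1 / 100) 2 ^ i) (Real.log (2 / (1 / 100)) ^ i) := by
    intro i
    induction i with
    | zero => simpa using L.LM.one
    | succ i ih =>
      simp only [pow_succ]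
      exact hM _ _ _ _ (pow_nonneg h0 i) h0
        (Eventually.of_forall fun x => pow_nonneg' (pz_nonneg x _ _) i)
        (Eventually.of_forall fun x => pz_nonneg x _ _) ih h1
  refine ⟨_, ?_, (lm_sum h2 200).mono (L.ev_pos.mono fun x hx => le_sum hx) le_rfl⟩
  exact (pow_zero _).ge.trans (single_le_sum (f := fun i => Real.log (2 / (1 / 100)) ^ i)
    (fun i _ => pow_nonneg h0 i) (mem_range.2 (Nat.succ_pos 200)))

end Pool.Agent.MP_c853c5_nt.B
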