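import Pool.Agent.MP_c853c5_nt.B.Basic

/-!
The long sum of the error of the fundamental lemma.
-/

set_option autoImplicit false

open Finset Filter

namespace Pool.Agent.MP_c853c5_nt.B

open Pool.Agent.MP_c853c5_nt.S

namespace JMass

lemma inner (hC : L.ConvStmt) {C Y Δ : ℝ} (C0 : 0 < C) (hY : 0 < Y) (hΔ : 0 < Δ)
    (hZ : ∀ Y : ℝ, 0 < Y → |SS Y Δ zt - Y| ≤ C * (Y * Δ + 1 / Δ)) {e : AF} {D : ℕ}
    (h1 : ∀ d, |e d| ≤ 1) (h2 : ∀ d, e d ≠ 0 → d ≤ D) (hD : (D : ℝ) ≤ 2 * Y) :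
    SS Y Δ (e * zt) ≤ Y * ∑ d ∈ Icc 1 D, e d / d + D * (C * (Y * Δ + 1 / Δ)) := by
  rw [SS_eq, hC Y Δ e zt hY, ← sum_subset (Icc_subset_Icc_right (Nat.le_floor hD))
    fun d hd hn => by
      rw [not_not.1 fun c => hn (mem_Icc.2 ⟨(mem_Icc.1 hd).1, h2 d c⟩), zero_mul]]
  have key : ∀ d ∈ Icc 1 D, e d * L.SS (Y / d) Δ zt ≤ Y * (e d / d) + C * (Y * Δ + 1 / Δ) := by
    intro d hd
    have d1 : (1 : ℝ) ≤ d := by exact_mod_cast (mem_Icc.1 hd).1
    have a1 := hZ (Y / d) (by positivity)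
    have a2 : Y / d * Δ ≤ Y * Δ := mul_le_mul_of_nonneg_right (div_le_self hY.le d1) hΔ.le
    have a3 : e d * (SS (Y / d) Δ zt - Y / d) ≤ C * (Y * Δ + 1 / Δ) := by
      refine (le_abs_self _).trans ?_
      rw [abs_mul]
      refine (mul_le_of_le_one_left (abs_nonneg _) (h1 d)).trans (a1.trans ?_)
      exact mul_le_mul_of_nonneg_left (by linarith) C0.le
    rw [← SS_eq, show Y * (e d / d) = e d * (Y / d) by ring]
    linarith
  refine (sum_le_sum key).trans (le_of_eq ?_)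
  rw [sum_add_distrib, ← mul_sum, sum_const, Nat.card_Icc, nsmul_eq_mul, Nat.add_sub_cancel]

lemma small {C ε : ℝ} (hC : 0 < C) (hε : 0 < ε) : ∀ᶠ x : ℝ in atTop,
    2 * C * x ^ (-(1 / 2000) : ℝ) ≤ ε / Real.log x := by
  have h := (isLittleO_log_rpow_atTop (r := 1 / 2000) (by norm_num)).def
    (show 0 < ε / (2 * C) by positivity)
  filter_upwards [h, eventually_gt_atTop 1] with x hx x1
  have x0 : 0 < x := by linarith
  have l0 := Real.log_pos x1
  have p0 : 0 < x ^ (1 / 2000 : ℝ) := Real.rpow_pos_of_pos x0 _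
  rw [Real.norm_of_nonneg l0.le, Real.norm_of_nonneg p0.le, div_mul_eq_mul_div,
    le_div_iff₀ (by positivity)] at hx
  rw [Real.rpow_neg x0.le, ← div_eq_mul_inv, div_le_div_iff₀ p0 l0]
  linarith

end JMass

open JMass in
theorem mass_stmt (hZ : ZetaStmt) (hC : L.ConvStmt) : MassStmt := by
  obtain ⟨C, C0, hZ⟩ := hZ
  intro ε hε
  filter_upwards [small C0 hε, eventually_gt_atTop 1] with x hs x1 G e D w μ hw hG hGs hμ h1 h2
    hD hsum
  have x0 : 0 < x := by linarith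
  have l0 := Real.log_pos x1
  have d0 : 0 < x ^ (-(1 / 1000) : ℝ) := Real.rpow_pos_of_pos x0 _
  have d1 : x ^ (-(1 / 1000) : ℝ) ≤ 1 := Real.rpow_le_one_of_one_le_of_nonpos x1.le (by norm_num)
  have key : ∀ Y : ℝ, x ^ (1 / 20 : ℝ) ≤ Y →
      SS Y (x ^ (-(1 / 1000) : ℝ)) (e * zt) ≤ Y * ((w + ε) / Real.log x) := by
    intro Y hY
    have y0 : 0 < Y := (Real.rpow_pos_of_pos x0 _).trans_le hY
    have a0 : (D : ℝ) ≤ Y :=
      hD.trans ((Real.rpow_le_rpow_of_exponent_le x1.le (by norm_num)).trans hY)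
    have a1 : (D : ℝ) * x ^ (-(1 / 1000) : ℝ) ≤ x ^ (-(1 / 2000) : ℝ) := by
      refine (mul_le_mul_of_nonneg_right hD d0.le).trans ?_
      rw [← Real.rpow_add x0]
      exact Real.rpow_le_rpow_of_exponent_le x1.le (by norm_num)
    have a2 : (D : ℝ) * (1 / x ^ (-(1 / 1000) : ℝ)) ≤ Y * x ^ (-(1 / 2000) : ℝ) := by
      refine (mul_le_mul_of_nonneg_right hD (by positivity)).trans
        (le_trans ?_ (mul_le_mul_of_nonneg_right hY (by positivity)))
      rw [one_div (x ^ _), ← Real.rpow_neg x0.le, ← Real.rpow_add x0, ← Real.rpow_add x0]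
      exact Real.rpow_le_rpow_of_exponent_le x1.le (by norm_num)
    refine (inner hC C0 y0 d0 (fun Y hY => hZ Y _ hY d0 d1) h1 h2 (by linarith)).trans ?_
    have a3 := mul_le_mul_of_nonneg_left hsum y0.le
    have a4 := mul_le_mul_of_nonneg_left hs y0.le
    have a5 := mul_le_mul_of_nonneg_left a1 (mul_pos C0 y0).le
    have a6 := mul_le_mul_of_nonneg_left a2 C0.le
    rw [add_div, mul_add Y (w / _)]
    nlinarith
  rw [SB, SS_eq, hC x _ G (e * zt) x0]
  have k0 : 0 ≤ (w + ε) * (x / Real.log x) := by positivity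
  calc _ ≤ ∑ m ∈ Icc 1 ⌊2 * x⌋₊, G m / m * ((w + ε) * (x / Real.log x)) := by
        refine sum_le_sum fun m hm => ?_
        have m0 : (0 : ℝ) < m := by exact_mod_cast (mem_Icc.1 hm).1
        rcases eq_or_ne (G m) 0 with h | h
        · simp [h]
        have b1 : x ^ (1 / 20 : ℝ) ≤ x / m := by
          rw [le_div_iff₀ m0]
          refine (mul_le_mul_of_nonneg_left (hGs m h) (by positivity)).trans (le_of_eq ?_)
          rw [← Real.rpow_add x0]
          norm_num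
        refine (mul_le_mul_of_nonneg_left (key _ b1) (hG m)).trans (le_of_eq ?_)
        ring
    _ ≤ _ := by
        rw [← sum_mul, mul_assoc]
        exact mul_le_mul_of_nonneg_right hμ k0

end Pool.Agent.MP_c853c5_nt.B
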