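import Pool.Agent.MP_c853c5_nt.B.Basic

/-!
Type II for a dyadic box times a free bounded factor.
-/

set_option autoImplicit false

open Finset Filter

namespace Pool.Agent.MP_c853c5_nt.B

open Pool.Agent.MP_c853c5_nt.S

namespace JT2

lemma lo {x a γ C N : ℝ} (hx : 0 < x) (hC : C ≤ x ^ γ) (hN : 0 ≤ N) (h : x ^ a ≤ C * N) :
    x ^ (a - γ) ≤ N := by
  rw [Real.rpow_sub hx, div_le_iff₀ (by positivity), mul_comm]
  exact h.trans (mul_le_mul_of_nonneg_right hC hN)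

lemma hi {x a γ C N : ℝ} (hx : 0 < x) (hC : C ≤ x ^ γ) (h : N ≤ C * x ^ a) :
    N ≤ x ^ (a + γ) := by
  rw [Real.rpow_add hx, mul_comm]
  exact h.trans (mul_le_mul_of_nonneg_right hC (by positivity))

/-- the size of a box that meets the window -/
lemma size {ι : Type} [Fintype ι] {N : ι → ℕ} {g : ι → AF} {h : AF} {c n : ℕ}
    (hs : ∀ i, Slot (N i) (g i)) (hn : ((∏ i, g i) * dy c h) n ≠ 0) :
    (2 : ℝ) ^ c * ∏ i, (N i : ℝ) ≤ n ∧
      (n : ℝ) ≤ 2 ^ (Fintype.card ι + 1) * (2 ^ c * ∏ i, (N i : ℝ)) := by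
  obtain ⟨m, l, h1, h2, rfl⟩ := prod_ne_zero_ex hn
  obtain ⟨-, h3, h4⟩ := dy_ne_zero h2
  have h5 : ∏ i, N i ≤ ∏ i, m i := prod_le_prod' fun i _ => ((hs i).2.2 _ (h1 i)).1
  have h6 : ∏ i, m i ≤ ∏ i, 2 * N i := prod_le_prod' fun i _ => ((hs i).2.2 _ (h1 i)).2.le
  rw [prod_mul_distrib, prod_const, card_univ] at h6
  have h7 : 2 ^ c * ∏ i, N i ≤ (∏ i, m i) * l := by
    rw [mul_comm]
    exact Nat.mul_le_mul h5 h3
  have h8 : (∏ i, m i) * l ≤ 2 ^ (Fintype.card ι + 1) * (2 ^ c * ∏ i, N i) :=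
    (Nat.mul_le_mul h6 h4.le).trans_eq (by ring)
  exact ⟨by exact_mod_cast h7, by exact_mod_cast h8⟩

end JT2

theorem t2_stmt (h : E2D) : T2Stmt := by
  intro ι _ τ t η C K A h1 h2 h3 h4 hC
  obtain ⟨γ, hγ, hE⟩ := h (Option ι) τ t η K (A + 2) h1 h2 h3 h4
  filter_upwards [hE, eventually_ge_atTop (3 : ℝ),
    Real.tendsto_log_atTop.eventually_ge_atTop 4,
    (tendsto_rpow_atTop hγ).eventually_ge_atTop (C * 2 ^ (Fintype.card ι + 2))]
    with x hE hx hl hγ' pr a b N g f ha hb0 hb1 hpt hs hN hp hu hd hf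
  have x0 : 0 < x := by linarith
  have C0 : 0 < C := by linarith
  have c2 : 2 * C ≤ x ^ γ := by
    refine le_trans ?_ hγ'
    rw [mul_comm]
    exact mul_le_mul_of_nonneg_left (le_self_pow₀ one_le_two (by omega)) C0.le
  have c1 : C ≤ x ^ γ := by linarith
  have P0 : 0 < ∏ i, (N i : ℝ) := prod_pos fun i _ => by exact_mod_cast (hs i).1
  have key : ∀ c : ℕ, |Dl t x ((∏ i, g i) * dy c f)| ≤ x / Real.log x ^ (A + 2) := by
    intro c
    by_cases e : ∀ n : ℕ, x / 2 < (n : ℝ) → (n : ℝ) ≤ 2 * x → ((∏ i, g i) * dy c f) n = 0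
    · rw [Dl_zero' x0.le t _ e, abs_zero]
      positivity
    push Not at e
    obtain ⟨n, n1, n2, n3⟩ := e
    obtain ⟨s1, s2⟩ := JT2.size hs n3
    have := hE (fun o => o.elim False pr) (fun o => o.elim b a) (fun o => o.elim (2 ^ c) N)
      (fun o => o.elim (dy c f) g) (fun o => by cases o; exacts [⟨hb0, hb1⟩, ha _]) hpt
      (fun o => by cases o; exacts [slot_dy c hf, hs _]) (fun o => ?_)
      (fun o => by cases o; exacts [False.elim, hp _]) ?_
    · rwa [Fintype.prod_option, mul_comm] at this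
    · cases o with
      | none =>
        change x ^ (b - γ) ≤ ((2 ^ c : ℕ) : ℝ) ∧ ((2 ^ c : ℕ) : ℝ) ≤ x ^ (b + γ)
        push_cast
        refine ⟨JT2.lo x0 hγ' (by positivity) (le_of_mul_le_mul_right (hu.trans ?_) P0),
          JT2.hi x0 c2 (le_of_mul_le_mul_right ?_ P0)⟩
        · rw [mul_assoc, mul_assoc, pow_succ _ (Fintype.card ι + 1)]
          refine mul_le_mul_of_nonneg_left ?_ C0.le
          linarith
        · linarith
      | some i => exact ⟨JT2.lo x0 c1 (Nat.cast_nonneg _) (hN i).1, JT2.hi x0 c1 (hN i).2⟩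
    · rw [Fintype.prod_option]
      change ((2 ^ c : ℕ) : ℝ) * ∏ i, (N i : ℝ) ≤ 2 * x
      push_cast
      linarith
  rw [Dl_sum' x0.le t (range (nI x)) (fun c => (∏ i, g i) * dy c f) _ fun n n1 n2 => ?_]
  · refine (abs_sum_le_sum_abs _ _).trans ((sum_le_card_nsmul _ _ _ fun c _ => key c).trans ?_)
    have l0 : 0 < Real.log x := by linarith
    have h5 : (nI x : ℝ) ≤ Real.log x ^ 2 := (nI_le hx).trans (by nlinarith)
    rw [card_range, nsmul_eq_mul]
    refine (mul_le_mul_of_nonneg_right h5 (by positivity)).trans_eq ?_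
    field_simp
    ring
  · rw [← af_sum_apply, ← mul_sum]
    have n0 : 0 < n := by exact_mod_cast (half_pos x0).trans n1
    exact mul_apply_congr _ fun d hd' =>
      (sum_dy f ((Nat.le_of_dvd n0 hd').trans_lt (lt_nI n2))).symm

end Pool.Agent.MP_c853c5_nt.B
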