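import Pool.Agent.MP_c853c5_nt.B.Basic

/-!
Type I sums with sieve weights.
-/

set_option autoImplicit false

open Finset Filter

namespace Pool.Agent.MP_c853c5_nt.B

open Pool.Agent.MP_c853c5_nt.S Pool.Agent.MP_2a1f0e_nt

namespace JTI

lemma sgl_apply (d n : ℕ) : sgl d n = if n = d ∧ n ≠ 0 then 1 else 0 := rfl

lemma omz_apply (y : ℝ) (l : ℕ) : omz y l = DH.om ((l : ℝ) / y) := rfl

lemma lt_of_omz {y : ℝ} (hy : 0 < y) {l : ℕ} (h : omz y l ≠ 0) : y < l := by
  by_contra k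
  exact h (DH.om_eq_zero (Or.inl ((div_le_one hy).2 (not_lt.1 k))))

lemma tele (y l : ℝ) (I : ℕ) : ∑ i ∈ range I, DH.om (l / (y * (4 / 3) ^ i)) =
    DH.psi (l / (y * (4 / 3) ^ I)) - DH.psi (l / y) := by
  have h := sum_range_sub (fun i => DH.psi (l / (y * (4 / 3) ^ i))) I
  simp only [pow_zero, mul_one] at h
  rw [← h]
  refine sum_congr rfl fun i _ => ?_
  unfold DH.om
  congr 2
  rw [pow_succ, ← mul_assoc, ← div_div]
  ring

lemma split (F : AF) {y : ℝ} (hy : 0 < y) (I n : ℕ)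
    (h : ∀ a l : ℕ, F a ≠ 0 → a * l = n → 2 * y ≤ l ∧ (l : ℝ) ≤ y * (4 / 3) ^ I) :
    (F * zt) n = ∑ i ∈ range I, (F * omz (y * (4 / 3) ^ i)) n := by
  simp only [ArithmeticFunction.mul_apply]
  rw [sum_comm]
  refine sum_congr rfl fun p hp => ?_
  rw [← mul_sum]
  rcases eq_or_ne (F p.1) 0 with e | e
  · rw [e, zero_mul, zero_mul]
  obtain ⟨h1, h2⟩ := h p.1 p.2 e (Nat.mem_divisorsAntidiagonal.1 hp).1
  simp only [omz_apply]
  rw [tele, DH.psi_eq_one ((div_le_one (by positivity)).2 h2),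
    DH.psi_eq_zero ((le_div_iff₀ hy).2 (by linarith)), sub_zero,
    zt_apply (Nat.right_ne_zero_of_mem_divisorsAntidiagonal hp)]

lemma wts (lam H : AF) {D : ℕ} (h : ∀ d, lam d ≠ 0 → d ≤ D) (n : ℕ) :
    (lam * H) n = ∑ d ∈ Icc 1 D, lam d * (sgl d * H) n := by
  simp only [ArithmeticFunction.mul_apply, mul_sum]
  rw [sum_comm]
  refine sum_congr rfl fun p hp => ?_
  have h0 := Nat.left_ne_zero_of_mem_divisorsAntidiagonal hp
  simp only [sgl_apply, h0, ne_eq, not_false_eq_true, and_true, ite_mul, one_mul, zero_mul,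
    mul_ite, mul_zero, sum_ite_eq]
  split_ifs with e
  · rfl
  · rcases eq_or_ne (lam p.1) 0 with k | k
    · rw [k, zero_mul]
    · exact absurd (mem_Icc.2 ⟨Nat.pos_of_ne_zero h0, h _ k⟩) e

lemma supp {ι : Type} [Fintype ι] {N : ι → ℕ} {g : ι → AF} (hg : ∀ i, Slot (N i) (g i)) {d a : ℕ}
    (h : (sgl d * ∏ i, g i) a ≠ 0) : (d : ℝ) * ∏ i, (N i : ℝ) ≤ a ∧
      (a : ℝ) ≤ 2 ^ Fintype.card ι * (d * ∏ i, (N i : ℝ)) := by
  obtain ⟨u, v, h1, h2, rfl⟩ := mul_ne_zero_ex h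
  obtain ⟨m, h3, rfl⟩ := prod_ne_zero_ex' _ _ v h2
  have h4 : u = d := by
    by_contra k
    exact h1 (if_neg fun e => k e.1)
  subst h4
  have h5 := fun i => (hg i).2.2 _ (h3 i (mem_univ i))
  push_cast
  constructor
  · exact mul_le_mul_of_nonneg_left (prod_le_prod (fun _ _ => Nat.cast_nonneg _) fun i _ => by
      exact_mod_cast (h5 i).1) (Nat.cast_nonneg _)
  · rw [mul_left_comm, ← card_univ, ← prod_const, ← prod_mul_distrib]
    exact mul_le_mul_of_nonneg_left (prod_le_prod (fun _ _ => Nat.cast_nonneg _) fun i _ => by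
      exact_mod_cast (h5 i).2.le) (Nat.cast_nonneg _)

lemma win {x Q a l : ℝ} {k : ℕ} (hx : 0 < x) (hQ : 0 < Q) (hl : 0 ≤ l) (h1 : Q ≤ a)
    (h2 : a ≤ 2 ^ k * Q) (h3 : x / 2 < a * l) (h4 : a * l ≤ 2 * x) :
    2 * (x / (2 ^ (k + 2) * Q)) ≤ l ∧ l ≤ x / (2 ^ (k + 2) * Q) * (4 / 3) ^ (3 * (k + 3)) := by
  constructor
  · rw [← mul_div_assoc, div_le_iff₀ (by positivity), pow_add]
    nlinarith [mul_le_mul_of_nonneg_right h2 hl]
  · have e1 : (2 : ℝ) ^ (k + 3) ≤ (4 / 3) ^ (3 * (k + 3)) := by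
      rw [pow_mul]
      exact pow_le_pow_left₀ (by norm_num) (by norm_num) _
    refine le_trans ?_ (mul_le_mul_of_nonneg_left e1 (by positivity))
    have e2 : x / (2 ^ (k + 2) * Q) * 2 ^ (k + 3) = 2 * x / Q := by
      rw [pow_succ _ (k + 2)]
      field_simp
    rw [e2, le_div_iff₀ hQ]
    nlinarith [mul_le_mul_of_nonneg_right h1 hl]

lemma ev_le (C : ℝ) {γ : ℝ} (hγ : 0 < γ) : ∀ᶠ x : ℝ in atTop, C ≤ x ^ γ :=
  (tendsto_rpow_atTop hγ).eventually_ge_atTop C

end JTI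

open JTI in
theorem ti_stmt (h : E1D) : TIStmt := by
  intro ι _ τ t η C K h1 h2 h3 h4 h5 hC
  obtain ⟨γ, hγ, h⟩ := h ι τ t η K h1 h2 h3 h4 h5
  obtain ⟨k, hk⟩ : ∃ k, k = Fintype.card ι := ⟨_, rfl⟩
  filter_upwards [h, ev_le (2 * C) hγ, ev_le (C * 2 ^ (k + 2)) (show 0 < (τ - t) / 4 by linarith),
    ev_le ((3 * (k + 3) : ℕ) : ℝ) (show 0 < η / 20 by linarith), eventually_ge_atTop 1]
    with x h c1 c2 c3 hx
  intro a b N g lam ha hb hE hg hN hP1 hP2 hl1 hl2
  have x0 : 0 < x := by linarith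
  have hP : 0 < ∏ i, (N i : ℝ) := prod_pos fun i _ => by exact_mod_cast (hg i).1
  obtain ⟨P, hPd⟩ : ∃ P, P = ∏ i, (N i : ℝ) := ⟨_, rfl⟩
  rw [← hPd] at hP hP1 hP2
  obtain ⟨m, hm⟩ : ∃ m, m = min (η / 20) ((τ - t) / 4) := ⟨_, rfl⟩
  rw [← hm] at hl2
  have hD : ∀ d ∈ Icc 1 ⌊x ^ m⌋₊, (1 : ℝ) ≤ d ∧ (d : ℝ) ≤ x ^ m := fun d hd =>
    ⟨by exact_mod_cast (mem_Icc.1 hd).1, (Nat.le_floor_iff (by positivity)).1 (mem_Icc.1 hd).2⟩
  rw [Dl_comb x0.le t (Icc 1 ⌊x ^ m⌋₊ ×ˢ range (3 * (k + 3))) (fun p => lam p.1)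
    (fun p => sgl p.1 * (∏ i, g i) * omz (x / (2 ^ (k + 2) * (p.1 * P)) * (4 / 3) ^ p.2)) _
    fun n n1 n2 => ?_]
  · refine (abs_sum_le_sum_abs _ _).trans ((sum_le_card_nsmul _ _ (x ^ (1 - η / 5))
      fun p hp => ?_).trans ?_)
    · obtain ⟨d1, d2⟩ := hD _ (mem_product.1 hp).1
      have d0 : (0 : ℝ) < p.1 := by linarith
      rw [abs_mul]
      refine (mul_le_of_le_one_left (abs_nonneg _) (hl1 _)).trans ?_
      have y1 : x / (2 ^ (k + 2) * (p.1 * P)) ≤ x / (2 ^ (k + 2) * (p.1 * P)) * (4 / 3) ^ p.2 :=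
        le_mul_of_one_le_right (by positivity) (one_le_pow₀ (by norm_num))
      have y0 : 0 < x / (2 ^ (k + 2) * (p.1 * P)) * (4 / 3) ^ p.2 := by positivity
      generalize x / (2 ^ (k + 2) * (p.1 * P)) * (4 / 3) ^ p.2 = y at y0 y1 ⊢
      by_cases e : (p.1 : ℝ) * P * y ≤ 2 * x
      · have y2 : x ^ (b - (τ - t) / 2) ≤ y := by
          refine le_trans ?_ y1
          have d3 : (p.1 : ℝ) ≤ x ^ ((τ - t) / 4) :=
            d2.trans (Real.rpow_le_rpow_of_exponent_le hx (hm ▸ min_le_right _ _))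
          have e1 : x ^ b = x ^ (b - (τ - t) / 2) * (x ^ ((τ - t) / 4) * x ^ ((τ - t) / 4)) := by
            rw [← Real.rpow_add x0, ← Real.rpow_add x0]
            congr 1
            ring
          have e2 : C * 2 ^ (k + 2) * p.1 ≤ x ^ ((τ - t) / 4) * x ^ ((τ - t) / 4) :=
            mul_le_mul c2 d3 d0.le (by positivity)
          have e3 : x ^ (b - (τ - t) / 2) * (C * 2 ^ (k + 2) * p.1) * P ≤ C * x := by
            refine le_trans (mul_le_mul_of_nonneg_right ?_ hP.le) hP1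
            rw [e1]
            exact mul_le_mul_of_nonneg_left e2 (by positivity)
          rw [le_div_iff₀ (by positivity)]
          refine le_of_mul_le_mul_left (e3.trans' (le_of_eq (by ring))) (by linarith : 0 < C)
        have y3 : y ≤ x ^ (b + γ) := by
          have e1 : P * y ≤ p.1 * P * y := by
            rw [mul_assoc]
            exact le_mul_of_one_le_left (by positivity) d1
          have e2 : P * y ≤ P * (2 * C * x ^ b) := by nlinarith
          rw [Real.rpow_add x0, mul_comm]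
          exact (le_of_mul_le_mul_left e2 hP).trans (mul_le_mul_of_nonneg_right c1 (by positivity))
        refine h a b N g p.1 y ha hb hE hg (fun i => (hN i).trans ?_) y2 y3
          ((Real.one_le_rpow hx (by linarith [hE.1])).trans y2) (mem_Icc.1 (mem_product.1 hp).1).1
          (hPd ▸ e)
        rw [Real.rpow_add x0, mul_comm]
        exact mul_le_mul_of_nonneg_left (by linarith) (by positivity)
      · rw [Dl_zero' x0.le t _ fun n _ n2 => ?_, abs_zero]
        · positivity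
        by_contra k1
        obtain ⟨u, l, k2, k3, rfl⟩ := mul_ne_zero_ex k1
        have k4 := (supp hg k2).1
        rw [← hPd] at k4
        rw [Nat.cast_mul] at n2
        exact e ((mul_le_mul k4 (lt_of_omz y0 k3).le y0.le (Nat.cast_nonneg _)).trans n2)
    · rw [card_product, Nat.card_Icc, card_range, nsmul_eq_mul, Nat.add_sub_cancel, Nat.cast_mul]
      have e1 : (⌊x ^ m⌋₊ : ℝ) ≤ x ^ (η / 20) := (Nat.floor_le (by positivity)).trans
        (Real.rpow_le_rpow_of_exponent_le hx (hm ▸ min_le_left _ _))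
      refine (mul_le_mul_of_nonneg_right (mul_le_mul e1 c3 (by positivity) (by positivity))
        (by positivity)).trans (le_of_eq ?_)
      rw [← Real.rpow_add x0, ← Real.rpow_add x0]
      congr 1
      ring
  · rw [mul_left_comm, wts lam _ (D := ⌊x ^ m⌋₊) fun d hd => Nat.le_floor (hl2 d hd), sum_product]
    refine sum_congr rfl fun d hd => ?_
    have d0 : (0 : ℝ) < d := by linarith [(hD d hd).1]
    rw [← mul_assoc, split _ (y := x / (2 ^ (k + 2) * (d * P))) (by positivity) (3 * (k + 3)) n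
      fun u l k1 k2 => ?_, mul_sum]
    obtain ⟨k3, k4⟩ := supp hg k1
    rw [← hPd] at k3 k4
    rw [← hk] at k4
    rw [← k2, Nat.cast_mul] at n1 n2
    exact win x0 (by positivity) (Nat.cast_nonneg _) k3 k4 n1 n2

end Pool.Agent.MP_c853c5_nt.B
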