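import Pool.Agent.MP_c853c5_nt.B.Basic
import Pool.Agent.MP_c853c5_nt.Z.Sand

/-!
The total weight of the window.
-/

set_option autoImplicit false

open Finset Filter MeasureTheory

namespace Pool.Agent.MP_c853c5_nt.B

open Pool.Agent.MP_c853c5_nt.S

namespace JZeta

open Pool.Agent.MP_c853c5_nt.Z

lemma end_int {g : ℝ → ℝ} {M a : ℝ} (h0 : ∀ u, 0 ≤ g u) (hM : ∀ u, g u ≤ M) (ha : 0 ≤ a) :
    |∫ u in (⌊a⌋₊ : ℝ)..a, g u| ≤ M := by
  have m : 0 ≤ M := (h0 0).trans (hM 0)
  have h1 := intervalIntegral.norm_integral_le_of_norm_le_const (a := (⌊a⌋₊ : ℝ)) (b := a)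
    (f := g) (C := M) fun u _ => by rw [Real.norm_of_nonneg (h0 u)]; exact hM u
  rw [abs_of_nonneg (sub_nonneg.2 (Nat.floor_le ha))] at h1
  have h2 := Nat.lt_floor_add_one a
  exact h1.trans (mul_le_of_le_one_right m (by linarith))

/-- sum and integral of a bounded monotone function -/
lemma sum_int {g : ℝ → ℝ} {M a b : ℝ} (hg : Monotone g) (h0 : ∀ u, 0 ≤ g u) (hM : ∀ u, g u ≤ M)
    (ha : 0 ≤ a) (hab : a ≤ b) :
    |∑ n ∈ Ioc ⌊a⌋₊ ⌊b⌋₊, g n - ∫ u in a..b, g u| ≤ 3 * M := by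
  have m : 0 ≤ M := (h0 0).trans (hM 0)
  have h := Nat.floor_le_floor hab
  have h1 := (hg.monotoneOn _).sum_le_integral_Ico h
  have h2 := (hg.monotoneOn _).integral_le_sum_Ico h
  rw [sum_Ico_add' (fun i : ℕ => g i), Ico_add_one_add_one_eq_Ioc] at h2
  have h3 := (sum_Ioc_add_eq_sum_Icc (f := fun i : ℕ => g i) h).trans
    (sum_Ico_add_eq_sum_Icc h).symm
  have h4 := intervalIntegral.integral_add_adjacent_intervals (μ := volume)
    (hg.intervalIntegrable (a := (⌊a⌋₊ : ℝ)) (b := a)) (hg.intervalIntegrable (a := a) (b := b))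
  have h5 := intervalIntegral.integral_add_adjacent_intervals (μ := volume)
    (hg.intervalIntegrable (a := (⌊a⌋₊ : ℝ)) (b := (⌊b⌋₊ : ℝ)))
    (hg.intervalIntegrable (a := (⌊b⌋₊ : ℝ)) (b := b))
  have h6 := abs_le.1 (end_int h0 hM ha)
  have h7 := abs_le.1 (end_int h0 hM (ha.trans hab))
  have h8 := h0 ⌊a⌋₊
  have h9 := hM ⌊b⌋₊
  rw [abs_le]
  constructor <;> linarith [h6.1, h6.2, h7.1, h7.2]

variable {D : ℝ}

lemma gg_anti (h : 0 < D) {z w : ℝ} (hz : |z| ≤ |w|) : gg D w ≤ gg D z := by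
  have h1 : z ^ 2 ≤ w ^ 2 := sq_le_sq.2 hz
  unfold gg
  gcongr

lemma gg_le (h : 0 < D) (w : ℝ) : gg D w ≤ 1 / D := by
  refine (gg_anti h (z := 0) (by simp)).trans_eq ?_
  simp [gg]

lemma gg_neg (D w : ℝ) : gg D (-w) = gg D w := by simp [gg]

lemma gg_cont (D : ℝ) : Continuous (gg D) := by
  unfold gg
  fun_prop

lemma abs_gg (h : 0 < D) (w : ℝ) : |w| * gg D w ≤ hh_Sand D w := by
  have h1 : |w| / D * hh_Sand D w ≤ 1 := by
    rw [hh_Sand, Real.exp_neg, ← div_eq_mul_inv, div_le_one (Real.exp_pos _)]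
    refine le_trans ?_ (Real.add_one_le_exp _)
    have e : Real.pi * w ^ 2 / (2 * D ^ 2) = Real.pi / 2 * (|w| / D) ^ 2 := by
      rw [div_pow, sq_abs]
      field_simp
    rw [e]
    nlinarith [Real.pi_gt_three, sq_nonneg (|w| / D - 1), sq_nonneg (|w| / D)]
  have h2 : 0 ≤ hh_Sand D w := Real.exp_nonneg _
  calc |w| * gg D w = |w| / D * hh_Sand D w * hh_Sand D w := by rw [gg_eq_Sand]; ring
    _ ≤ _ := mul_le_of_le_one_left h2 h1

lemma hh_log (h : 0 < D) (h1 : D ≤ 1) : hh_Sand D (Real.log 2) ≤ 2 * D := by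
  have l := Real.log_two_gt_d9
  have p : 1 ≤ Real.pi * Real.log 2 ^ 2 := by nlinarith [Real.pi_gt_three]
  rw [hh_Sand, Real.exp_neg, inv_le_comm₀ (Real.exp_pos _) (by positivity)]
  refine le_trans ?_ (Real.add_one_le_exp _)
  have h2 : (2 * D)⁻¹ ≤ 1 / (2 * D ^ 2) := by
    rw [one_div]
    exact inv_anti₀ (by positivity) (by nlinarith)
  have h3 : 1 / (2 * D ^ 2) ≤ Real.pi * Real.log 2 ^ 2 / (2 * D ^ 2) := by gcongr
  linarith

lemma int_exp (h : 0 < D) (h1 : D ≤ 1) :
    |(∫ w in (-Real.log 2)..Real.log 2, gg D w * Real.exp w) - 1| ≤ 8 * D := by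
  have l := Real.log_two_gt_d9
  have l' := Real.log_two_lt_d9
  have hl : -Real.log 2 ≤ Real.log 2 := by linarith
  have c := gg_cont D
  have a1 := int_le_Sand h hl 0
  have a2 := le_int_Sand h (a := -Real.log 2) (b := Real.log 2) (c := 0) (d := Real.log 2)
    (by linarith) (by linarith) (by linarith)
  simp only [sub_zero] at a1 a2
  have a3 := hh_log h h1
  have c1 : Continuous fun w => gg D w * Real.exp w := by fun_prop
  have c2 : Continuous (hh_Sand D) := by
    unfold hh_Sand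
    fun_prop
  have a4 : |∫ w in (-Real.log 2)..Real.log 2, (gg D w * Real.exp w - gg D w)| ≤
      ∫ w in (-Real.log 2)..Real.log 2, 2 * hh_Sand D w := by
    refine (intervalIntegral.abs_integral_le_integral_abs hl).trans
      (intervalIntegral.integral_mono_on hl ((c1.sub c).abs.intervalIntegrable _ _)
        ((c2.const_mul 2).intervalIntegrable _ _) fun w hw => ?_)
    have b1 := Real.abs_exp_sub_one_le (x := w) (abs_le.2 ⟨by linarith [hw.1], by linarith [hw.2]⟩)
    have b2 := gg_nonneg_Sand h w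
    rw [← mul_sub_one, abs_mul, abs_of_nonneg b2]
    nlinarith [abs_gg h w, mul_le_mul_of_nonneg_left b1 b2]
  rw [intervalIntegral.integral_sub (c1.intervalIntegrable _ _) (c.intervalIntegrable _ _),
    intervalIntegral.integral_const_mul, abs_le] at a4
  have a5 : ∫ w in (-Real.log 2)..Real.log 2, hh_Sand D w ≤ 2 * D := by
    rw [intervalIntegral.integral_of_le hl]
    exact (setIntegral_le_integral (hh_int_Sand h).1
      (Eventually.of_forall fun w => Real.exp_nonneg _)).trans (hh_int_Sand h).2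
  rw [abs_le]
  constructor <;> linarith [a4.1, a4.2]

lemma int_log (D : ℝ) {Y : ℝ} (hY : 0 < Y) :
    ∫ u in (Y / 2)..(2 * Y), gg D (Real.log Y - Real.log u) =
      Y * ∫ w in (-Real.log 2)..Real.log 2, gg D w * Real.exp w := by
  have h := intervalIntegral.integral_comp_mul_deriv_of_deriv_nonneg (a := -Real.log 2)
    (b := Real.log 2) (f := fun w => Y * Real.exp w) (f' := fun w => Y * Real.exp w)
    (g := fun u => gg D (Real.log Y - Real.log u)) (by fun_prop)
    (fun w _ => (Real.hasDerivAt_exp w).const_mul Y) fun w _ => by positivity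
  rw [Real.exp_neg, Real.exp_log two_pos, ← div_eq_mul_inv, mul_comm Y 2] at h
  rw [← h, ← intervalIntegral.integral_const_mul]
  refine intervalIntegral.integral_congr fun w _ => ?_
  simp only [Function.comp]
  rw [Real.log_mul hY.ne' (Real.exp_pos w).ne', Real.log_exp, sub_add_cancel_left, gg_neg]
  ring

end JZeta

open JZeta in
theorem zeta_stmt : ZetaStmt := by
  refine ⟨8, by norm_num, fun Y D hY hD h1 => ?_⟩
  let F : ℝ → ℝ := fun u => Z.gg D (Real.log Y - Real.log u)
  let G : ℝ → ℝ := fun u => F (max (Y / 2) (min u Y))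
  let H : ℝ → ℝ := fun u => 1 / D - F (max u Y)
  have y2 : 0 < Y / 2 := by positivity
  have mG : Monotone G := fun u v huv => gg_anti hD (by
    have b1 : ∀ s, max (Y / 2) (min s Y) ≤ Y := fun s => max_le (by linarith) (min_le_right _ _)
    have b2 : ∀ s, 0 < max (Y / 2) (min s Y) := fun s => y2.trans_le (le_max_left _ _)
    rw [abs_of_nonneg (sub_nonneg.2 (Real.log_le_log (b2 _) (b1 _))),
      abs_of_nonneg (sub_nonneg.2 (Real.log_le_log (b2 _) (b1 _)))]
    exact sub_le_sub_left (Real.log_le_log (b2 _) (by gcongr)) _)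
  have mH : Monotone H := fun u v huv => sub_le_sub_left (gg_anti hD (by
    rw [abs_of_nonpos (sub_nonpos.2 (Real.log_le_log hY (le_max_right _ _))),
      abs_of_nonpos (sub_nonpos.2 (Real.log_le_log hY (le_max_right _ _)))]
    exact neg_le_neg (sub_le_sub_left (Real.log_le_log (hY.trans_le (le_max_right _ _))
      (by gcongr)) _))) _
  have e : ∀ u, Y / 2 ≤ u → F u = G u - H u := fun u hu => by
    have b : F Y = 1 / D := by simp [F, Z.gg]
    rcases le_total u Y with k | k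
    · simp only [G, H, min_eq_left k, max_eq_right k, max_eq_right hu, b, sub_self, sub_zero]
    · simp only [G, H, min_eq_right k, max_eq_left k, max_eq_right (half_le_self hY.le), b,
        sub_sub_cancel]
  have hab : Y / 2 ≤ 2 * Y := by linarith
  have s1 := sum_int mG (fun u => Z.gg_nonneg_Sand hD _) (fun u => gg_le hD _) y2.le hab
  have s2 := sum_int (M := 1 / D) mH (fun u => sub_nonneg.2 (gg_le hD _))
    (fun u => sub_le_self _ (Z.gg_nonneg_Sand hD _)) y2.le hab
  have e1 : SS Y D zt = ∑ n ∈ Ioc ⌊Y / 2⌋₊ ⌊2 * Y⌋₊, G n - ∑ n ∈ Ioc ⌊Y / 2⌋₊ ⌊2 * Y⌋₊, H n := by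
    rw [SS, ← sum_sub_distrib]
    refine sum_congr rfl fun n hn => ?_
    rw [zt_apply (Nat.zero_lt_of_lt (mem_Ioc.1 hn).1).ne', one_mul]
    exact e n ((L.mem_win hY.le).1 hn).1.le
  have e2 : (∫ u in (Y / 2)..(2 * Y), G u) - ∫ u in (Y / 2)..(2 * Y), H u =
      Y * ∫ w in (-Real.log 2)..Real.log 2, Z.gg D w * Real.exp w := by
    rw [← int_log D hY, ← intervalIntegral.integral_sub mG.intervalIntegrable
      mH.intervalIntegrable]
    refine intervalIntegral.integral_congr fun u hu => ?_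
    rw [Set.uIcc_of_le hab] at hu
    exact (e u hu.1).symm
  have s3 := abs_le.1 (int_exp hD h1)
  have s4 := mul_le_mul_of_nonneg_left s3.1 hY.le
  have s5 := mul_le_mul_of_nonneg_left s3.2 hY.le
  have s6 : 0 < 1 / D := by positivity
  rw [abs_le] at s1 s2 ⊢
  constructor <;> linarith [s1.1, s1.2, s2.1, s2.2]

end Pool.Agent.MP_c853c5_nt.B
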